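import Pool.Agent.LibBD92.Comp

/-!
The auxiliary tree that unravels a closed set.
-/

namespace BD92

/-- Quasistrategies of the player `0` below `x`. -/
structure QI (G : GT) (x : G.N) (S : Set G.N) : Prop where
  mem : x ∈ S
  ext : ∀ y ∈ S, Ext G x y
  par : ∀ y ∈ S, y ≠ x → G.par y ∈ S
  odd : ∀ y ∈ S, G.lev y % 2 = 1 → ∀ z, G.lev z = G.lev y + 1 → G.par z = y → z ∈ S
  even : ∀ y ∈ S, G.lev y % 2 = 0 → ∃ z ∈ S, G.lev z = G.lev y + 1 ∧ G.par z = y

/-- Quasistrategies of the player `1` below `x` inside `S` with all nodes in `C`. -/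
structure QII (G : GT) (C : G.N → Prop) (x : G.N) (S S' : Set G.N) : Prop where
  mem : x ∈ S'
  sub : S' ⊆ S
  ext : ∀ y ∈ S', Ext G x y
  par : ∀ y ∈ S', y ≠ x → G.par y ∈ S'
  even : ∀ y ∈ S', G.lev y % 2 = 0 → ∀ z ∈ S, G.lev z = G.lev y + 1 → G.par z = y → z ∈ S'
  odd : ∀ y ∈ S', G.lev y % 2 = 1 → ∃ z ∈ S', G.lev z = G.lev y + 1 ∧ G.par z = y
  inC : ∀ y ∈ S', C y

/-- The nodes of even level in `S` outside `C`. -/
def Esc (G : GT) (C : G.N → Prop) (S : Set G.N) : Set G.N :=
  {u | u ∈ S ∧ G.lev u % 2 = 0 ∧ ¬ C u}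

/-- The additional data of a node. -/
abbrev Dt (G : GT) : Type := Option (Set G.N) × Option (G.N ⊕ Set G.N)

/-- The valid nodes of the auxiliary tree. -/
inductive Val (G : GT) (C : G.N → Prop) (k : ℕ) : G.N → Dt G → Prop
  | low (x : G.N) (h : G.lev x ≤ 2 * k) : Val G C k x (none, none)
  | one (x : G.N) (S : Set G.N) (h : G.lev x = 2 * k + 1) (hS : QI G x S) :
      Val G C k x (some S, none)
  | esc (x : G.N) (S : Set G.N) (u : G.N) (h : 2 * k + 2 ≤ G.lev x)
      (hS : QI G (G.anc (2 * k + 1) x) S) (hx : G.anc (2 * k + 2) x ∈ S)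
      (hu : u ∈ Esc G C S) (hxu : Ext G (G.anc (2 * k + 2) x) u)
      (hcomp : Ext G x u ∨ Ext G u x) : Val G C k x (some S, some (Sum.inl u))
  | stay (x : G.N) (S S' : Set G.N) (h : 2 * k + 2 ≤ G.lev x)
      (hS : QI G (G.anc (2 * k + 1) x) S) (hS' : QII G C (G.anc (2 * k + 2) x) S S')
      (hx : x ∈ S') : Val G C k x (some S, some (Sum.inr S'))

variable {G : GT} {C : G.N → Prop} {k : ℕ}

theorem val_low {x : G.N} {d : Dt G} (h : Val G C k x d) (hx : G.lev x ≤ 2 * k) :
    d = (none, none) := by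
  cases h with
  | low => rfl
  | one S h _ => omega
  | esc S u h => omega
  | stay S S' h => omega

theorem val_one {x : G.N} {d : Dt G} (h : Val G C k x d) (hx : G.lev x = 2 * k + 1) :
    ∃ S, d = (some S, none) ∧ QI G x S := by
  cases h with
  | low h => omega
  | one S h hS => exact ⟨S, rfl, hS⟩
  | esc S u h => omega
  | stay S S' h => omega

theorem val_high {x : G.N} {d : Dt G} (h : Val G C k x d) (hx : 2 * k + 2 ≤ G.lev x) :
    ∃ S, QI G (G.anc (2 * k + 1) x) S ∧
      ((∃ u, d = (some S, some (Sum.inl u)) ∧ G.anc (2 * k + 2) x ∈ S ∧ u ∈ Esc G C S ∧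
        Ext G (G.anc (2 * k + 2) x) u ∧ (Ext G x u ∨ Ext G u x)) ∨
      (∃ S', d = (some S, some (Sum.inr S')) ∧ QII G C (G.anc (2 * k + 2) x) S S' ∧
        x ∈ S')) := by
  cases h with
  | low h => omega
  | one S h hS => omega
  | esc S u h hS hx hu hxu hcomp =>
    exact ⟨S, hS, Or.inl ⟨u, rfl, hx, hu, hxu, hcomp⟩⟩
  | stay S S' h hS hS' hx => exact ⟨S, hS, Or.inr ⟨S', rfl, hS', hx⟩⟩

/-- The data of the parent of a node of level `l` with data `d`. -/
def trc (k l : ℕ) (d : Dt G) : Dt G :=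
  (if l ≤ 2 * k + 1 then none else d.1, if l ≤ 2 * k + 2 then none else d.2)

theorem anc_top {x : G.N} {n : ℕ} (h : G.lev x = n) : G.anc n x = x := anc_of_le (by omega)

theorem val_par {x : G.N} {d : Dt G} (h : Val G C k x d) :
    Val G C k (G.par x) (trc k (G.lev x) d) := by
  have hl := G.lev_par x
  rcases Nat.lt_or_ge (G.lev x) (2 * k + 2) with h1 | h1
  · have : trc k (G.lev x) d = (none, none) := by
      simp only [trc, if_pos (show G.lev x ≤ 2 * k + 1 by omega),
        if_pos (show G.lev x ≤ 2 * k + 2 by omega)]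
    rw [this]
    exact Val.low _ (by omega)
  · obtain ⟨S, hS, h2⟩ := val_high h h1
    rcases Nat.lt_or_ge (G.lev x) (2 * k + 3) with h3 | h3
    · have hx1 : G.par x = G.anc (2 * k + 1) x := by
        rw [← par_anc (by omega), anc_top (show G.lev x = 2 * k + 1 + 1 by omega)]
      have h4 : trc k (G.lev x) d = (some S, none) := by
        have h5 : d.1 = some S := by
          rcases h2 with ⟨u, h6, _⟩ | ⟨S', h6, _⟩ <;> rw [h6]
        simp only [trc, if_neg (show ¬ G.lev x ≤ 2 * k + 1 by omega),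
          if_pos (show G.lev x ≤ 2 * k + 2 by omega), h5]
      rw [h4]
      exact Val.one _ S (by omega) (by rw [hx1]; exact hS)
    · have h4 : trc k (G.lev x) d = d := by
        simp only [trc, if_neg (show ¬ G.lev x ≤ 2 * k + 1 by omega),
          if_neg (show ¬ G.lev x ≤ 2 * k + 2 by omega)]
      have h5 : G.anc (2 * k + 1) (G.par x) = G.anc (2 * k + 1) x := anc_par (by omega)
      have h6 : G.anc (2 * k + 2) (G.par x) = G.anc (2 * k + 2) x := anc_par (by omega)
      rw [h4]
      rcases h2 with ⟨u, rfl, hx, hu, hxu, hcomp⟩ | ⟨S', rfl, hS', hx⟩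
      · refine Val.esc _ S u (by omega) (by rw [h5]; exact hS) (by rw [h6]; exact hx) hu
          (by rw [h6]; exact hxu) ?_
        have hpx : Ext G (G.par x) x := ext_child (by omega) rfl
        rcases hcomp with hc | hc
        · exact Or.inl (ext_trans hpx hc)
        · by_cases hxu' : x = u
          · subst hxu'; exact Or.inl hpx
          · exact Or.inr (ext_par hc hxu')
      · refine Val.stay _ S S' (by omega) (by rw [h5]; exact hS) (by rw [h6]; exact hS') ?_
        refine hS'.par x hx fun hcon => ?_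
        have := lev_anc (G := G) (m := 2 * k + 2) (y := x) (by omega)
        rw [← hcon] at this
        omega

theorem exists_val_child (hC : ∀ y, C y → C (G.par y)) {x : G.N} {d : Dt G}
    (h : Val G C k x d) : ∃ (y : G.N) (e : Dt G), Val G C k y e ∧ G.lev y = G.lev x + 1 ∧
      G.par y = x ∧ trc k (G.lev y) e = d := by
  rcases Nat.lt_or_ge (G.lev x) (2 * k) with h1 | h1
  · obtain ⟨y, h2, h3⟩ := G.child x
    refine ⟨y, (none, none), Val.low _ (by omega), h2, h3, ?_⟩
    rw [val_low h (by omega)]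
    simp [trc]
  rcases Nat.lt_or_ge (G.lev x) (2 * k + 1) with h1' | h1'
  · obtain ⟨y, h2, h3⟩ := G.child x
    refine ⟨y, (some {z | Ext G y z}, none), Val.one _ _ (by omega) ?_, h2, h3, ?_⟩
    · refine ⟨ext_refl y, fun z hz => hz, fun z hz hne => ext_par hz hne,
        fun z hz _ w hw1 hw2 => ext_trans hz (ext_child hw1 hw2), fun z hz _ => ?_⟩
      obtain ⟨w, hw1, hw2⟩ := G.child z
      exact ⟨w, ext_trans hz (ext_child hw1 hw2), hw1, hw2⟩
    · rw [val_low h (by omega)]
      simp only [trc, if_pos (show G.lev y ≤ 2 * k + 1 by omega),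
        if_pos (show G.lev y ≤ 2 * k + 2 by omega)]
  rcases Nat.lt_or_ge (G.lev x) (2 * k + 2) with h2' | h2'
  · obtain ⟨S, rfl, hS⟩ := val_one h (by omega)
    obtain ⟨y, h2, h3⟩ := G.child x
    have hyS : y ∈ S := hS.odd x hS.mem (by omega) y h2 h3
    have hy2 : G.anc (2 * k + 2) y = y := anc_top (by omega)
    have hy1 : G.anc (2 * k + 1) y = x := by
      rw [← par_anc (by omega), anc_top (show G.lev y = 2 * k + 1 + 1 by omega), h3]
    have htrc : ∀ e : Option (G.N ⊕ Set G.N),
        trc k (G.lev y) ((some S, e) : Dt G) = (some S, none) := fun e => by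
      simp only [trc, if_neg (show ¬ G.lev y ≤ 2 * k + 1 by omega),
        if_pos (show G.lev y ≤ 2 * k + 2 by omega)]
    by_cases hu : ∃ u ∈ Esc G C S, Ext G y u
    · obtain ⟨u, hu, hyu⟩ := hu
      exact ⟨y, (some S, some (Sum.inl u)), Val.esc _ S u (by omega) (by rw [hy1]; exact hS)
        (by rw [hy2]; exact hyS) hu (by rw [hy2]; exact hyu) (Or.inl hyu), h2, h3, htrc _⟩
    · refine ⟨y, (some S, some (Sum.inr {z | z ∈ S ∧ Ext G y z})),
        Val.stay _ S _ (by omega) (by rw [hy1]; exact hS) ?_ ⟨hyS, ext_refl y⟩, h2, h3, htrc _⟩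
      rw [hy2]
      refine ⟨⟨hyS, ext_refl y⟩, fun z hz => hz.1, fun z hz => hz.2, fun z hz hne => ?_,
        fun z hz _ w hw hw1 hw2 => ⟨hw, ext_trans hz.2 (ext_child hw1 hw2)⟩,
        fun z hz hz' => ?_, fun z hz => ?_⟩
      · refine ⟨hS.par z hz.1 fun hcon => ?_, ext_par hz.2 hne⟩
        have := hz.2.2
        rw [hcon] at this
        omega
      · obtain ⟨w, hw1, hw2⟩ := G.child z
        exact ⟨w, ⟨hS.odd z hz.1 hz' w hw1 hw2, ext_trans hz.2 (ext_child hw1 hw2)⟩, hw1, hw2⟩
      · by_contra hcon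
        rcases Nat.mod_two_eq_zero_or_one (G.lev z) with hz' | hz'
        · exact hu ⟨z, ⟨hz.1, hz', hcon⟩, hz.2⟩
        · obtain ⟨w, hw1, hw2⟩ := G.child z
          refine hu ⟨w, ⟨hS.odd z hz.1 hz' w hw1 hw2, by omega, fun hcw => hcon ?_⟩,
            ext_trans hz.2 (ext_child hw1 hw2)⟩
          rw [← hw2]; exact hC w hcw
  · obtain ⟨S, hS, h3⟩ := val_high h h2'
    have hgen : ∀ y : G.N, G.lev y = G.lev x + 1 → G.par y = x →
        G.anc (2 * k + 1) y = G.anc (2 * k + 1) x ∧
        G.anc (2 * k + 2) y = G.anc (2 * k + 2) x := fun y hy1 hy2 => by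
      constructor
      · rw [← anc_par (by omega), hy2]
      · rw [← anc_par (by omega), hy2]
    have htrc : ∀ (y : G.N) (e : Dt G), G.lev y = G.lev x + 1 → trc k (G.lev y) e = e :=
      fun y e hy => by
        simp only [trc, if_neg (show ¬ G.lev y ≤ 2 * k + 1 by omega),
          if_neg (show ¬ G.lev y ≤ 2 * k + 2 by omega)]
    rcases h3 with ⟨u, rfl, hx, hu, hxu, hcomp⟩ | ⟨S', rfl, hS', hx⟩
    · by_cases hlt : G.lev x < G.lev u
      · have hxu' : Ext G x u := by
          rcases hcomp with hc | hc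
          · exact hc
          · have := hc.2; omega
        have hy1 : G.lev (G.anc (G.lev x + 1) u) = G.lev x + 1 := lev_anc hlt
        have hy2 : G.par (G.anc (G.lev x + 1) u) = x := by
          rw [par_anc hlt]; exact hxu'.1
        obtain ⟨h4, h5⟩ := hgen _ hy1 hy2
        exact ⟨_, (some S, some (Sum.inl u)), Val.esc _ S u (by omega) (by rw [h4]; exact hS)
          (by rw [h5]; exact hx) hu (by rw [h5]; exact hxu) (Or.inl (ext_anc u)), hy1, hy2,
          htrc _ _ hy1⟩
      · obtain ⟨y, hy1, hy2⟩ := G.child x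
        have hux : Ext G u x := by
          rcases hcomp with hc | hc
          · have h6 := hc.2
            have h7 := hc.1
            rw [anc_of_le (by omega)] at h7
            rw [h7]; exact ext_refl x
          · exact hc
        obtain ⟨h4, h5⟩ := hgen _ hy1 hy2
        exact ⟨y, (some S, some (Sum.inl u)), Val.esc _ S u (by omega) (by rw [h4]; exact hS)
          (by rw [h5]; exact hx) hu (by rw [h5]; exact hxu)
          (Or.inr (ext_trans hux (ext_child hy1 hy2))), hy1, hy2, htrc _ _ hy1⟩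
    · have hch : ∃ y ∈ S', G.lev y = G.lev x + 1 ∧ G.par y = x := by
        rcases Nat.mod_two_eq_zero_or_one (G.lev x) with h4 | h4
        · obtain ⟨z, hz, hz1, hz2⟩ := hS.even x (hS'.sub hx) h4
          exact ⟨z, hS'.even x hx h4 z hz hz1 hz2, hz1, hz2⟩
        · exact hS'.odd x hx h4
      obtain ⟨y, hy, hy1, hy2⟩ := hch
      obtain ⟨h4, h5⟩ := hgen _ hy1 hy2
      exact ⟨y, (some S, some (Sum.inr S')), Val.stay _ S S' (by omega) (by rw [h4]; exact hS)
        (by rw [h5]; exact hS') hy, hy1, hy2, htrc _ _ hy1⟩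

/-- The auxiliary tree. -/
def CG (G : GT) (C : G.N → Prop) (hC : ∀ y, C y → C (G.par y)) (k : ℕ) : GT where
  N := {p : G.N × Dt G // Val G C k p.1 p.2}
  lev := fun p => G.lev p.1.1
  par := fun p => ⟨(G.par p.1.1, trc k (G.lev p.1.1) p.1.2), val_par p.2⟩
  root := ⟨(G.root, (none, none)), Val.low _ (by rw [G.lev_root]; omega)⟩
  lev_root := G.lev_root
  root_unique := fun p hp => by
    obtain ⟨⟨x, d⟩, hv⟩ := p
    have h1 : x = G.root := G.root_unique x hp
    have h2 : d = (none, none) := val_low hv (by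
      change G.lev x ≤ _
      rw [hp]; omega)
    subst h1 h2
    rfl
  lev_par := fun p => G.lev_par _
  child := fun p => by
    obtain ⟨y, e, h1, h2, h3, h4⟩ := exists_val_child hC p.2
    exact ⟨⟨(y, e), h1⟩, h2, Subtype.ext (Prod.ext h3 h4)⟩

/-- The projection of the auxiliary tree. -/
def CP (G : GT) (C : G.N → Prop) (hC : ∀ y, C y → C (G.par y)) (k : ℕ) :
    LMap (CG G C hC k) G :=
  ⟨fun p => p.1.1, fun _ => rfl, fun _ => rfl⟩

end BD92
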