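import Pool.Agent.LibBD92.Cl1

/-!
Answers of a strategy of the auxiliary tree, lifting of branches.
-/

namespace BD92

variable {G : GT} {C : G.N → Prop} {hC : ∀ y, C y → C (G.par y)} {k : ℕ}

open Classical in
/-- The answer of `σ` at the node `y` with the data `d`. -/
noncomputable def resp (σ : St (CG G C hC k)) (y : G.N) (d : Dt G) : G.N :=
  if h : Val G C k y d then (σ.f ⟨(y, d), h⟩).1.1 else (default : St G).f y

open Classical in
/-- The data of the answer of `σ` at the node `y` with the data `d`. -/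
noncomputable def dat (σ : St (CG G C hC k)) (y : G.N) (d : Dt G) : Dt G :=
  if h : Val G C k y d then (σ.f ⟨(y, d), h⟩).1.2 else (none, none)

theorem resp_lev (σ : St (CG G C hC k)) (y : G.N) (d : Dt G) :
    G.lev (resp σ y d) = G.lev y + 1 := by
  unfold resp
  split
  · rename_i h
    exact σ.lev_f ⟨(y, d), h⟩
  · exact (default : St G).lev_f y

theorem resp_par (σ : St (CG G C hC k)) (y : G.N) (d : Dt G) : G.par (resp σ y d) = y := by
  unfold resp
  split
  · rename_i h
    exact congrArg (fun p : (CG G C hC k).N => p.1.1) (σ.par_f ⟨(y, d), h⟩)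
  · exact (default : St G).par_f y

theorem resp_eq (σ : St (CG G C hC k)) {y : G.N} {d : Dt G} (h : Val G C k y d) :
    (σ.f ⟨(y, d), h⟩).1 = (resp σ y d, dat σ y d) := by
  unfold resp dat
  rw [dif_pos h, dif_pos h]

theorem val_resp (σ : St (CG G C hC k)) {y : G.N} {d : Dt G} (h : Val G C k y d) :
    Val G C k (resp σ y d) (dat σ y d) := by
  have h1 := (σ.f ⟨(y, d), h⟩).2
  rw [resp_eq σ h] at h1
  exact h1

theorem trc_dat (σ : St (CG G C hC k)) {y : G.N} {d : Dt G} (h : Val G C k y d) :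
    trc k (G.lev y + 1) (dat σ y d) = d := by
  have h1 := congrArg (fun p : (CG G C hC k).N => p.1.2) (σ.par_f ⟨(y, d), h⟩)
  change trc k (G.lev (σ.f ⟨(y, d), h⟩).1.1) (σ.f ⟨(y, d), h⟩).1.2 = d at h1
  rw [resp_eq σ h] at h1
  simp only at h1
  rw [resp_lev] at h1
  exact h1

/-- above the level `2 k + 2` the data do not change. -/
theorem dat_high (σ : St (CG G C hC k)) {y : G.N} {d : Dt G} (h : Val G C k y d)
    (hy : 2 * k + 2 ≤ G.lev y) : dat σ y d = d := by
  have h1 := trc_dat σ h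
  simp only [trc, if_neg (show ¬ G.lev y + 1 ≤ 2 * k + 1 by omega),
    if_neg (show ¬ G.lev y + 1 ≤ 2 * k + 2 by omega)] at h1
  exact h1

theorem dat_low (σ : St (CG G C hC k)) {y : G.N} {d : Dt G} (h : Val G C k y d)
    (hy : G.lev y < 2 * k) : dat σ y d = (none, none) :=
  val_low (val_resp σ h) (by rw [resp_lev]; omega)

theorem dat_zero (σ : St (CG G C hC k)) {y : G.N} {d : Dt G} (h : Val G C k y d)
    (hy : G.lev y = 2 * k) : ∃ S, dat σ y d = (some S, none) ∧ QI G (resp σ y d) S :=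
  val_one (val_resp σ h) (by rw [resp_lev]; omega)

theorem dat_one (σ : St (CG G C hC k)) {y : G.N} {S : Set G.N}
    (h : Val G C k y (some S, none)) (hy : G.lev y = 2 * k + 1) :
    (∃ u, dat σ y (some S, none) = (some S, some (Sum.inl u)) ∧
      resp σ y (some S, none) ∈ S ∧ u ∈ Esc G C S ∧ Ext G (resp σ y (some S, none)) u) ∨
    (∃ S', dat σ y (some S, none) = (some S, some (Sum.inr S')) ∧
      QII G C (resp σ y (some S, none)) S S') := by
  have h1 := val_resp σ h
  have h2 : G.lev (resp σ y (some S, none)) = 2 * k + 2 := by rw [resp_lev]; omega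
  have h3 := trc_dat σ h
  obtain ⟨S1, hS1, h4⟩ := val_high h1 (by omega)
  rw [anc_top h2] at h4
  rcases h4 with ⟨u, h5, h6, h7, h8, _⟩ | ⟨S', h5, h6, h7⟩
  · have h9 : S1 = S := by
      rw [h5] at h3
      simp only [trc, if_neg (show ¬ G.lev y + 1 ≤ 2 * k + 1 by omega),
        if_pos (show G.lev y + 1 ≤ 2 * k + 2 by omega), Prod.mk.injEq, Option.some.injEq,
        and_true] at h3
      exact h3
    subst h9
    exact Or.inl ⟨u, h5, h6, h7, h8⟩
  · have h9 : S1 = S := by
      rw [h5] at h3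
      simp only [trc, if_neg (show ¬ G.lev y + 1 ≤ 2 * k + 1 by omega),
        if_pos (show G.lev y + 1 ≤ 2 * k + 2 by omega), Prod.mk.injEq, Option.some.injEq,
        and_true] at h3
      exact h3
    subst h9
    exact Or.inr ⟨S', h5, h6⟩

/-- the data along a branch. -/
def DD (k : ℕ) (S : Set G.N) (e : G.N ⊕ Set G.N) (n : ℕ) : Dt G :=
  (if n ≤ 2 * k then none else some S, if n ≤ 2 * k + 1 then none else some e)

theorem DD_low {S : Set G.N} {e : G.N ⊕ Set G.N} {n : ℕ} (h : n ≤ 2 * k) :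
    DD k S e n = (none, none) := by
  simp only [DD, if_pos h, if_pos (show n ≤ 2 * k + 1 by omega)]

theorem DD_one {S : Set G.N} {e : G.N ⊕ Set G.N} :
    DD k S e (2 * k + 1) = (some S, none) := by
  simp only [DD, if_neg (show ¬ 2 * k + 1 ≤ 2 * k by omega), if_pos (le_refl (2 * k + 1))]

theorem DD_high {S : Set G.N} {e : G.N ⊕ Set G.N} {n : ℕ} (h : 2 * k + 2 ≤ n) :
    DD k S e n = (some S, some e) := by
  simp only [DD, if_neg (show ¬ n ≤ 2 * k by omega), if_neg (show ¬ n ≤ 2 * k + 1 by omega)]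

theorem trc_DD (S : Set G.N) (e : G.N ⊕ Set G.N) (n : ℕ) :
    trc k (n + 1) (DD k S e (n + 1)) = DD k S e n := by
  unfold trc DD
  refine Prod.ext ?_ ?_
  · simp only
    by_cases h : n ≤ 2 * k
    · rw [if_pos (by omega), if_pos h]
    · rw [if_neg (by omega), if_neg (by omega), if_neg h]
  · simp only
    by_cases h : n ≤ 2 * k + 1
    · rw [if_pos (by omega), if_pos h]
    · rw [if_neg (by omega), if_neg (by omega), if_neg h]

/-- Lifting of a branch with constant data; criterion for following a strategy. -/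
theorem exists_lift (σ : St (CG G C hC k)) (p : ℕ) (y : Br G) (S : Set G.N)
    (e : G.N ⊕ Set G.N) (hv : ∀ n, Val G C k (y.x n) (DD k S e n))
    (h1 : ∀ n, n % 2 = p → y.x (n + 1) = resp σ (y.x n) (DD k S e n))
    (h2 : ∀ n, n % 2 = p → dat σ (y.x n) (DD k S e n) = DD k S e (n + 1)) :
    ∃ x : Br (CG G C hC k), Cons p σ x ∧ (CP G C hC k).br x = y := by
  refine ⟨⟨fun n => ⟨(y.x n, DD k S e n), hv n⟩, fun n => y.lev_x n, fun n => ?_⟩,
    fun n hn => ?_, ?_⟩
  · refine Subtype.ext (Prod.ext (y.par_x n) ?_)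
    change trc k (G.lev (y.x (n + 1))) (DD k S e (n + 1)) = DD k S e n
    rw [y.lev_x, trc_DD]
  · refine Subtype.ext ?_
    rw [resp_eq σ (hv n), ← h1 n hn, h2 n hn]
  · exact Br.ext rfl

/-- the chosen forcing strategies. -/
noncomputable def tau (G : GT) (p : ℕ) (U : Set G.N) (z : G.N) : St G :=
  open Classical in
  if h : Force G p U z then h.choose else default

theorem tau_spec {p : ℕ} {U : Set G.N} {z : G.N} (h : Force G p U z) (x : Br G)
    (hx : x.x (G.lev z) = z)
    (hc : ∀ n, G.lev z ≤ n → n % 2 = p → x.x (n + 1) = (tau G p U z).f (x.x n)) :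
    ∃ n, G.lev z ≤ n ∧ x.x n ∈ U := by
  unfold tau at hc
  rw [dif_pos h] at hc
  exact h.choose_spec x hx hc

/-- the nodes of `S` below `x` such that no node between can force `U`. -/
def NL (G : GT) (p : ℕ) (U : Set G.N) (S : Set G.N) (x : G.N) : Set G.N :=
  {z | z ∈ S ∧ Ext G x z ∧ ∀ w, Ext G x w → Ext G w z → ¬ Force G p U w}

/-- a node between is the child or is below the father. -/
theorem ext_child_cases {w y z : G.N} (h1 : G.lev z = G.lev y + 1) (h2 : G.par z = y)
    (h : Ext G w z) : w = z ∨ Ext G w y := by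
  by_cases hw : z = w
  · exact Or.inl hw.symm
  · right
    rw [← h2]
    exact ext_par h hw

theorem nl_qii {S : Set G.N} {x1 x2 : G.N} (hC : ∀ y, C y → C (G.par y)) (hS : QI G x1 S)
    (h1 : G.lev x2 = G.lev x1 + 1) (hx2 : x2 ∈ S)
    (hnf : ¬ Force G 0 (Esc G C S) x2) :
    QII G C x2 S (NL G 0 (Esc G C S) S x2) := by
  have hchild : ∀ y ∈ NL G 0 (Esc G C S) S x2, ∀ z ∈ S, G.lev z = G.lev y + 1 →
      G.par z = y → ¬ Force G 0 (Esc G C S) z → z ∈ NL G 0 (Esc G C S) S x2 := by
    intro y hy z hz hz1 hz2 hnz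
    refine ⟨hz, ext_trans hy.2.1 (ext_child hz1 hz2), fun w hw1 hw2 => ?_⟩
    rcases ext_child_cases hz1 hz2 hw2 with rfl | hw3
    · exact hnz
    · exact hy.2.2 w hw1 hw3
  have hself : ∀ y ∈ NL G 0 (Esc G C S) S x2, ¬ Force G 0 (Esc G C S) y := fun y hy =>
    hy.2.2 y hy.2.1 (ext_refl y)
  refine ⟨⟨hx2, ext_refl x2, fun w hw1 hw2 => ?_⟩, fun z hz => hz.1, fun z hz => hz.2.1,
    fun z hz hne => ?_, fun y hy hy0 z hz hz1 hz2 => ?_, fun y hy hy1 => ?_, fun y hy => ?_⟩
  · have h3 := hw1.2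
    have h4 := hw2.2
    have h5 := hw1.1
    rw [anc_of_le (by omega)] at h5
    rw [h5]; exact hnf
  · refine ⟨hS.par z hz.1 fun hcon => ?_, ext_par hz.2.1 hne, fun w hw1 hw2 => ?_⟩
    · have := hz.2.1.2
      rw [hcon] at this
      omega
    · have hpz : Ext G (G.par z) z := by
        refine ext_child ?_ rfl
        have h3 := hz.2.1.2
        rw [G.lev_par]
        omega
      exact hz.2.2 w hw1 (ext_trans hw2 hpz)
  · exact hchild y hy z hz hz1 hz2 fun hf => hself y hy (force_own hy0 hz1 hz2 hf)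
  · by_contra hcon
    push Not at hcon
    refine hself y hy (force_opp (fun z hz1 hz2 => ?_) (by omega))
    by_contra hnz
    have hzS : z ∈ S := hS.odd y hy.1 hy1 z hz1 hz2
    exact hcon z (hchild y hy z hzS hz1 hz2 hnz) hz1 hz2
  · by_contra hcon
    rcases Nat.mod_two_eq_zero_or_one (G.lev y) with h0 | h0
    · exact hself y hy (force_self ⟨hy.1, h0, hcon⟩)
    · refine hself y hy (force_opp (fun z hz1 hz2 => force_self
        ⟨hS.odd y hy.1 h0 z hz1 hz2, by omega, fun hcz => hcon ?_⟩) (by omega))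
      rw [← hz2]; exact hC z hcz

theorem nl_qi {x1 : G.N} {V : Set G.N} (hnf : ¬ Force G 1 V x1) :
    QI G x1 (NL G 1 V Set.univ x1) := by
  have hchild : ∀ y ∈ NL G 1 V Set.univ x1, ∀ z, G.lev z = G.lev y + 1 →
      G.par z = y → ¬ Force G 1 V z → z ∈ NL G 1 V Set.univ x1 := by
    intro y hy z hz1 hz2 hnz
    refine ⟨trivial, ext_trans hy.2.1 (ext_child hz1 hz2), fun w hw1 hw2 => ?_⟩
    rcases ext_child_cases hz1 hz2 hw2 with rfl | hw3
    · exact hnz
    · exact hy.2.2 w hw1 hw3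
  have hself : ∀ y ∈ NL G 1 V Set.univ x1, ¬ Force G 1 V y := fun y hy =>
    hy.2.2 y hy.2.1 (ext_refl y)
  refine ⟨⟨trivial, ext_refl x1, fun w hw1 hw2 => ?_⟩, fun z hz => hz.2.1,
    fun z hz hne => ?_, fun y hy hy1 z hz1 hz2 => ?_, fun y hy hy0 => ?_⟩
  · have h3 := hw1.2
    have h4 := hw2.2
    have h5 := hw1.1
    rw [anc_of_le (by omega)] at h5
    rw [h5]; exact hnf
  · refine ⟨trivial, ext_par hz.2.1 hne, fun w hw1 hw2 => ?_⟩
    have hlt : G.lev x1 < G.lev z := by
      rcases Nat.lt_or_ge (G.lev x1) (G.lev z) with h' | h'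
      · exact h'
      · exfalso
        have := hz.2.1.1
        rw [anc_of_le h'] at this
        exact hne this
    have hpz : Ext G (G.par z) z := by
      refine ext_child ?_ rfl
      rw [G.lev_par]
      omega
    exact hz.2.2 w hw1 (ext_trans hw2 hpz)
  · exact hchild y hy z hz1 hz2 fun hf => hself y hy (force_own hy1 hz1 hz2 hf)
  · by_contra hcon
    push Not at hcon
    refine hself y hy (force_opp (fun z hz1 hz2 => ?_) (by omega))
    by_contra hnz
    exact hcon z (hchild y hy z hz1 hz2 hnz) hz1 hz2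

end BD92
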