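import Pool.Agent.LibBD92.Cl2

/-!
The auxiliary tree: strategies of the player `0`.
-/

namespace BD92

variable {G : GT} {C : G.N → Prop} {hC : ∀ y, C y → C (G.par y)} {k : ℕ}

/-- Some node of level at least `L` on the way to `y` is in `P`. -/
def Hit (G : GT) (L : ℕ) (P : Set G.N) (y : G.N) : Prop :=
  ∃ m, L ≤ m ∧ m ≤ G.lev y ∧ G.anc m y ∈ P

open Classical in
/-- The first such node. -/
noncomputable def fstN (G : GT) (L : ℕ) (P : Set G.N) (y : G.N) : G.N :=
  if h : Hit G L P y then
    G.anc (Nat.find (p := fun m => L ≤ m ∧ m ≤ G.lev y ∧ G.anc m y ∈ P) h) y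
  else y

theorem hit_of (y : Br G) {L : ℕ} {P : Set G.N} {n0 n : ℕ} (hL : L ≤ n0) (h0 : y.x n0 ∈ P)
    (hn : n0 ≤ n) : Hit G L P (y.x n) :=
  ⟨n0, hL, by rw [y.lev_x]; exact hn, by rw [br_anc y hn]; exact h0⟩

theorem hit_imp (y : Br G) {L : ℕ} {P : Set G.N} {n : ℕ} (h : Hit G L P (y.x n)) :
    ∃ m, L ≤ m ∧ m ≤ n ∧ y.x m ∈ P := by
  obtain ⟨m, h1, h2, h3⟩ := h
  rw [y.lev_x] at h2
  rw [br_anc y h2] at h3
  exact ⟨m, h1, h2, h3⟩

theorem fstN_eq (y : Br G) {L : ℕ} {P : Set G.N} {n0 n : ℕ} (hL : L ≤ n0) (h0 : y.x n0 ∈ P)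
    (hmin : ∀ m, L ≤ m → m < n0 → y.x m ∉ P) (hn : n0 ≤ n) :
    fstN G L P (y.x n) = y.x n0 := by
  classical
  have h := hit_of y hL h0 hn
  unfold fstN
  rw [dif_pos h]
  have h1 : Nat.find (p := fun m => L ≤ m ∧ m ≤ G.lev (y.x n) ∧ G.anc m (y.x n) ∈ P) h = n0 := by
    rw [Nat.find_eq_iff]
    refine ⟨⟨hL, by rw [y.lev_x]; exact hn, by rw [br_anc y hn]; exact h0⟩, ?_⟩
    rintro m hm ⟨h2, h3, h4⟩
    rw [br_anc y (by omega)] at h4
    exact hmin m h2 hm h4
  rw [← br_anc y hn]
  congr 1

theorem resp_congr {σ τ : St (CG G C hC k)} {n : ℕ}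
    (h : ∀ x, (CG G C hC k).lev x ≤ n → σ.f x = τ.f x) {y : G.N} (hy : G.lev y ≤ n) :
    resp σ y = resp τ y := by
  funext d
  unfold resp
  by_cases hv : Val G C k y d
  · rw [dif_pos hv, dif_pos hv, h ⟨(y, d), hv⟩ hy]
  · rw [dif_neg hv, dif_neg hv]

theorem dat_congr {σ τ : St (CG G C hC k)} {n : ℕ}
    (h : ∀ x, (CG G C hC k).lev x ≤ n → σ.f x = τ.f x) {y : G.N} (hy : G.lev y ≤ n) :
    dat σ y = dat τ y := by
  funext d
  unfold dat
  by_cases hv : Val G C k y d
  · rw [dif_pos hv, dif_pos hv, h ⟨(y, d), hv⟩ hy]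
  · rw [dif_neg hv, dif_neg hv]

open Classical in
/-- The answer of the player `0` above the level `2 k`. -/
noncomputable def auxI (C : G.N → Prop) (k : ℕ) (r : Dt G → G.N) (S : Set G.N) (y : G.N) :
    G.N :=
  if Hit G (2 * k + 2) (Esc G C S) y then
    r (some S, some (Sum.inl (fstN G (2 * k + 2) (Esc G C S) y)))
  else if Hit G (2 * k + 2) {z | Force G 0 (Esc G C S) z} y then
    (tau G 0 (Esc G C S) (fstN G (2 * k + 2) {z | Force G 0 (Esc G C S) z} y)).f y
  else r (some S, some (Sum.inr (NL G 0 (Esc G C S) S (G.anc (2 * k + 2) y))))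

open Classical in
/-- The transformed strategy of the player `0`. -/
noncomputable def phiIf (σ : St (CG G C hC k)) (y : G.N) : G.N :=
  if G.lev y ≤ 2 * k then resp σ y (none, none)
  else auxI C k (resp σ y) ((dat σ (G.anc (2 * k) y) (none, none)).1.getD ∅) y

/-- The transformed strategy of the player `0`. -/
noncomputable def phiI (σ : St (CG G C hC k)) : St G where
  f := phiIf σ
  lev_f := fun y => by
    unfold phiIf auxI
    split
    · exact resp_lev σ y _
    · split
      · exact resp_lev σ y _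
      · split
        · exact St.lev_f _ y
        · exact resp_lev σ y _
  par_f := fun y => by
    unfold phiIf auxI
    split
    · exact resp_par σ y _
    · split
      · exact resp_par σ y _
      · split
        · exact St.par_f _ y
        · exact resp_par σ y _

theorem phiI_loc {σ τ : St (CG G C hC k)} {n : ℕ}
    (h : ∀ x, (CG G C hC k).lev x ≤ n → σ.f x = τ.f x) {y : G.N} (hy : G.lev y ≤ n) :
    (phiI σ).f y = (phiI τ).f y := by
  change phiIf σ y = phiIf τ y
  unfold phiIf
  rw [resp_congr h hy]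
  by_cases hl : G.lev y ≤ 2 * k
  · rw [if_pos hl, if_pos hl]
  · rw [if_neg hl, if_neg hl, dat_congr h (y := G.anc (2 * k) y) (by
      rw [lev_anc (by omega)]; omega)]

theorem phiI_low (σ : St (CG G C hC k)) (x : (CG G C hC k).N)
    (hx : (CG G C hC k).lev x < 2 * k) :
    (phiI σ).f ((CP G C hC k).f x) = (CP G C hC k).f (σ.f x) := by
  obtain ⟨⟨z, d⟩, hv⟩ := x
  change G.lev z < 2 * k at hx
  have hd : d = (none, none) := val_low hv (le_of_lt hx)
  subst hd
  change phiIf σ z = (σ.f ⟨(z, (none, none)), hv⟩).1.1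
  unfold phiIf
  rw [if_pos (le_of_lt hx), resp_eq σ hv]

/-- the answers at a branch that follows `inl u`. -/
theorem forced (σ : St (CG G C hC k)) (y : Br G) {S : Set G.N} {n0 n : ℕ}
    (hn : 2 * k + 2 ≤ n) (hn0 : n < n0)
    (hv : Val G C k (y.x n) (some S, some (Sum.inl (y.x n0)))) :
    resp σ (y.x n) (some S, some (Sum.inl (y.x n0))) = y.x (n + 1) := by
  have h1 := val_resp σ hv
  have hl : G.lev (resp σ (y.x n) (some S, some (Sum.inl (y.x n0)))) = n + 1 := by
    rw [resp_lev, y.lev_x]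
  rw [dat_high σ hv (by rw [y.lev_x]; exact hn)] at h1
  obtain ⟨S1, _, h2⟩ := val_high h1 (by omega)
  rcases h2 with ⟨u, h3, _, _, _, h4⟩ | ⟨S', h3, _⟩
  · simp only [Prod.mk.injEq, Option.some.injEq, Sum.inl.injEq] at h3
    obtain ⟨_, rfl⟩ := h3
    have h5 : Ext G (resp σ (y.x n) (some S, some (Sum.inl (y.x n0)))) (y.x n0) := by
      rcases h4 with h4 | h4
      · exact h4
      · have h6 := h4.1
        have h7 := h4.2
        rw [anc_of_le (by rw [hl, y.lev_x]; omega)] at h6
        rw [h6]; exact ext_refl _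
    rw [← h5.1, hl, br_anc y (by omega)]
  · simp only [Prod.mk.injEq, Option.some.injEq, reduceCtorEq, and_false] at h3

/-- validity of the data `inl u` along a branch. -/
theorem val_esc_br (y : Br G) {S : Set G.N} {n0 : ℕ} (hS : QI G (y.x (2 * k + 1)) S)
    (h2 : y.x (2 * k + 2) ∈ S) (hn0 : 2 * k + 2 ≤ n0) (hu : y.x n0 ∈ Esc G C S) (n : ℕ) :
    Val G C k (y.x n) (DD k S (Sum.inl (y.x n0)) n) := by
  rcases Nat.lt_or_ge (2 * k) n with h | h
  · rcases Nat.lt_or_ge (2 * k + 1) n with h' | h'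
    · rw [DD_high (by omega)]
      refine Val.esc _ S _ (by rw [y.lev_x]; omega) ?_ ?_ hu ?_ ?_
      · rw [br_anc y (by omega)]; exact hS
      · rw [br_anc y (by omega)]; exact h2
      · rw [br_anc y (by omega)]; exact ext_br y hn0
      · rcases Nat.le_total n n0 with h3 | h3
        · exact Or.inl (ext_br y h3)
        · exact Or.inr (ext_br y h3)
    · obtain rfl : n = 2 * k + 1 := by omega
      rw [DD_one]
      exact Val.one _ S (y.lev_x _) hS
  · rw [DD_low h]
    exact Val.low _ (by rw [y.lev_x]; exact h)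

/-- validity of the data `inr S'` along a branch. -/
theorem val_stay_br (y : Br G) {S S' : Set G.N} (hS : QI G (y.x (2 * k + 1)) S)
    (hS' : QII G C (y.x (2 * k + 2)) S S') (h : ∀ n, 2 * k + 2 ≤ n → y.x n ∈ S') (n : ℕ) :
    Val G C k (y.x n) (DD k S (Sum.inr S') n) := by
  rcases Nat.lt_or_ge (2 * k) n with h1 | h1
  · rcases Nat.lt_or_ge (2 * k + 1) n with h' | h'
    · rw [DD_high (by omega)]
      refine Val.stay _ S S' (by rw [y.lev_x]; omega) ?_ ?_ (h n (by omega))
      · rw [br_anc y (by omega)]; exact hS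
      · rw [br_anc y (by omega)]; exact hS'
    · obtain rfl : n = 2 * k + 1 := by omega
      rw [DD_one]
      exact Val.one _ S (y.lev_x _) hS
  · rw [DD_low h1]
    exact Val.low _ (by rw [y.lev_x]; exact h1)

theorem phiI_lift (σ : St (CG G C hC k)) (y : Br G) (hy : Cons 0 (phiI σ) y) :
    ∃ x : Br (CG G C hC k), Cons 0 σ x ∧ (CP G C hC k).br x = y := by
  classical
  have hval0 : ∀ n, n ≤ 2 * k → Val G C k (y.x n) (none, none) := fun n hn =>
    Val.low _ (by rw [y.lev_x]; exact hn)
  have hlow : ∀ n, n % 2 = 0 → n ≤ 2 * k → y.x (n + 1) = resp σ (y.x n) (none, none) := by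
    intro n hn hn'
    rw [hy n hn]
    change phiIf σ (y.x n) = _
    unfold phiIf
    rw [if_pos (by rw [y.lev_x]; exact hn')]
  obtain ⟨S, hSd, hS⟩ := dat_zero σ (hval0 (2 * k) le_rfl) (y.lev_x _)
  rw [← hlow (2 * k) (by omega) le_rfl] at hS
  have hhigh : ∀ n, n % 2 = 0 → 2 * k + 2 ≤ n →
      y.x (n + 1) = auxI C k (resp σ (y.x n)) S (y.x n) := by
    intro n hn hn'
    rw [hy n hn]
    change phiIf σ (y.x n) = _
    unfold phiIf
    rw [if_neg (by rw [y.lev_x]; omega), br_anc y (by omega), hSd]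
    rfl
  have h2S : y.x (2 * k + 2) ∈ S :=
    hS.odd _ hS.mem (by rw [y.lev_x]; omega) _ (by rw [y.lev_x, y.lev_x]) (y.par_x _)
  by_cases hA : ∃ n, 2 * k + 2 ≤ n ∧ y.x n ∈ Esc G C S
  · -- the set of escapes is reached
    set n0 := Nat.find hA with hn0
    obtain ⟨h3, h4⟩ := Nat.find_spec hA
    rw [← hn0] at h3 h4
    have hmin : ∀ m, 2 * k + 2 ≤ m → m < n0 → y.x m ∉ Esc G C S := fun m hm1 hm2 hm3 =>
      Nat.find_min hA hm2 ⟨hm1, hm3⟩
    have hv := val_esc_br y hS h2S h3 h4
    refine exists_lift σ 0 y S (Sum.inl (y.x n0)) hv (fun n hn => ?_) (fun n hn => ?_)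
    · rcases Nat.lt_or_ge (2 * k) n with h5 | h5
      · rw [DD_high (by omega)]
        rcases Nat.lt_or_ge n n0 with h6 | h6
        · have h7 := hv n
          rw [DD_high (by omega)] at h7
          exact (forced σ y (by omega) h6 h7).symm
        · rw [hhigh n hn (by omega)]
          unfold auxI
          rw [if_pos (hit_of y h3 h4 h6), fstN_eq y h3 h4 hmin h6]
      · rw [DD_low h5]
        exact hlow n hn h5
    · rcases Nat.lt_or_ge n (2 * k) with h5 | h5
      · rw [DD_low (by omega), DD_low (by omega)]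
        exact dat_low σ (hval0 n (by omega)) (by rw [y.lev_x]; exact h5)
      · rcases Nat.lt_or_ge (2 * k) n with h6 | h6
        · have h7 := hv n
          rw [DD_high (by omega)] at h7
          rw [DD_high (by omega), DD_high (by omega)]
          exact dat_high σ h7 (by rw [y.lev_x]; omega)
        · obtain rfl : n = 2 * k := by omega
          rw [DD_low le_rfl, DD_one]
          exact hSd
  · -- the set of escapes is not reached
    push Not at hA
    have hnoEsc : ∀ n, ¬ Hit G (2 * k + 2) (Esc G C S) (y.x n) := by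
      intro n hn
      obtain ⟨m, h1, _, h3⟩ := hit_imp y hn
      exact hA m h1 h3
    have hnoF : ∀ n, 2 * k + 2 ≤ n → ¬ Force G 0 (Esc G C S) (y.x n) := by
      by_contra hcon
      push Not at hcon
      set n1 := Nat.find hcon with hn1
      obtain ⟨h3, h4⟩ := Nat.find_spec hcon
      rw [← hn1] at h3 h4
      have hmin : ∀ m, 2 * k + 2 ≤ m → m < n1 →
          y.x m ∉ {z | Force G 0 (Esc G C S) z} := fun m hm1 hm2 hm3 =>
        Nat.find_min hcon hm2 ⟨hm1, hm3⟩
      have h4' : y.x n1 ∈ {z | Force G 0 (Esc G C S) z} := h4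
      obtain ⟨n, h5, h6⟩ := tau_spec h4 y (by rw [y.lev_x]) (fun n hn hn0 => by
        rw [y.lev_x] at hn
        rw [hhigh n hn0 (by omega)]
        unfold auxI
        rw [if_neg (hnoEsc n), if_pos (hit_of y h3 h4' hn), fstN_eq y h3 h4' hmin hn])
      rw [y.lev_x] at h5
      exact hA n (by omega) h6
    have hS' : QII G C (y.x (2 * k + 2)) S (NL G 0 (Esc G C S) S (y.x (2 * k + 2))) :=
      nl_qii hC hS (by rw [y.lev_x, y.lev_x]) h2S (hnoF _ le_rfl)
    have hhigh' : ∀ n, n % 2 = 0 → 2 * k + 2 ≤ n → y.x (n + 1) = resp σ (y.x n)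
        (some S, some (Sum.inr (NL G 0 (Esc G C S) S (y.x (2 * k + 2))))) := by
      intro n hn hn'
      rw [hhigh n hn hn']
      unfold auxI
      rw [if_neg (hnoEsc n), if_neg, br_anc y hn']
      intro hh
      obtain ⟨m, h1, _, h3⟩ := hit_imp y hh
      exact hnoF m h1 h3
    have hmem : ∀ n, 2 * k + 2 ≤ n → y.x n ∈ NL G 0 (Esc G C S) S (y.x (2 * k + 2)) := by
      intro n hn
      induction n, hn using Nat.le_induction with
      | base => exact hS'.mem
      | succ n hn ih =>
        rcases Nat.mod_two_eq_zero_or_one n with h0 | h0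
        · have hv : Val G C k (y.x n)
              (some S, some (Sum.inr (NL G 0 (Esc G C S) S (y.x (2 * k + 2))))) := by
            refine Val.stay _ _ _ (by rw [y.lev_x]; exact hn) ?_ ?_ ih
            · rw [br_anc y (by omega)]; exact hS
            · rw [br_anc y hn]; exact hS'
          have h1 := val_resp σ hv
          rw [dat_high σ hv (by rw [y.lev_x]; exact hn), ← hhigh' n h0 hn] at h1
          obtain ⟨S1, _, h2⟩ := val_high h1 (by rw [y.lev_x]; omega)
          rcases h2 with ⟨u, h3, _⟩ | ⟨S', h3, _, h4⟩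
          · simp only [Prod.mk.injEq, Option.some.injEq, reduceCtorEq, and_false] at h3
          · simp only [Prod.mk.injEq, Option.some.injEq, Sum.inr.injEq] at h3
            rw [h3.2]; exact h4
        · refine ⟨hS.odd _ ih.1 (by rw [y.lev_x]; exact h0) _ (by rw [y.lev_x, y.lev_x])
            (y.par_x n), ext_br y (by omega), fun w hw1 hw2 => ?_⟩
          rcases ext_child_cases (by rw [y.lev_x, y.lev_x]) (y.par_x n) hw2 with rfl | hw3
          · exact hnoF _ (by omega)
          · exact ih.2.2 w hw1 hw3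
    have hv := val_stay_br y hS hS' hmem
    refine exists_lift σ 0 y S _ hv (fun n hn => ?_) (fun n hn => ?_)
    · rcases Nat.lt_or_ge (2 * k) n with h5 | h5
      · rw [DD_high (by omega)]
        exact hhigh' n hn (by omega)
      · rw [DD_low h5]
        exact hlow n hn h5
    · rcases Nat.lt_or_ge n (2 * k) with h5 | h5
      · rw [DD_low (by omega), DD_low (by omega)]
        exact dat_low σ (hval0 n (by omega)) (by rw [y.lev_x]; exact h5)
      · rcases Nat.lt_or_ge (2 * k) n with h6 | h6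
        · have h7 := hv n
          rw [DD_high (by omega)] at h7
          rw [DD_high (by omega), DD_high (by omega)]
          exact dat_high σ h7 (by rw [y.lev_x]; omega)
        · obtain rfl : n = 2 * k := by omega
          rw [DD_low le_rfl, DD_one]
          exact hSd

end BD92
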