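import Pool.Agent.LibBD92.Cl3

/-!
The auxiliary tree: strategies of the player `1`.
-/

namespace BD92

variable {G : GT} {C : G.N → Prop} {hC : ∀ y, C y → C (G.par y)} {k : ℕ}

/-- The escapes that the player `1` can be made to announce at `x1`. -/
def VV (C : G.N → Prop) (k : ℕ) (x1 : G.N) (D : Dt G → Dt G) : Set G.N :=
  {u | ∃ S, Val G C k x1 (some S, none) ∧ (D (some S, none)).2 = some (Sum.inl u)}

open Classical in
/-- A quasistrategy that makes the player `1` announce `u`. -/
noncomputable def SU (C : G.N → Prop) (k : ℕ) (x1 : G.N) (D : Dt G → Dt G) (u : G.N) :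
    Set G.N :=
  if h : ∃ S, Val G C k x1 (some S, none) ∧ (D (some S, none)).2 = some (Sum.inl u) then
    h.choose
  else ∅

theorem SU_spec {x1 : G.N} {D : Dt G → Dt G} {u : G.N} (h : u ∈ VV C k x1 D) :
    Val G C k x1 (some (SU C k x1 D u), none) ∧
      (D (some (SU C k x1 D u), none)).2 = some (Sum.inl u) := by
  have h' : ∃ S, Val G C k x1 (some S, none) ∧ (D (some S, none)).2 = some (Sum.inl u) := h
  unfold SU
  rw [dif_pos h']
  exact h'.choose_spec

open Classical in
/-- The answer of the player `1` above the level `2 k`. -/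
noncomputable def auxII (C : G.N → Prop) (k : ℕ) (r : Dt G → G.N) (D : Dt G → Dt G)
    (x1 y : G.N) : G.N :=
  if Hit G (2 * k + 2) (VV C k x1 D) y then
    r (some (SU C k x1 D (fstN G (2 * k + 2) (VV C k x1 D) y)),
      some (Sum.inl (fstN G (2 * k + 2) (VV C k x1 D) y)))
  else if Hit G (2 * k + 1) {z | Force G 1 (VV C k x1 D) z} y then
    (tau G 1 (VV C k x1 D) (fstN G (2 * k + 1) {z | Force G 1 (VV C k x1 D) z} y)).f y
  else if G.lev y = 2 * k + 1 then r (some (NL G 1 (VV C k x1 D) Set.univ x1), none)
  else r (D (some (NL G 1 (VV C k x1 D) Set.univ x1), none))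

open Classical in
/-- The transformed strategy of the player `1`. -/
noncomputable def phiIIf (σ : St (CG G C hC k)) (y : G.N) : G.N :=
  if G.lev y ≤ 2 * k then resp σ y (none, none)
  else auxII C k (resp σ y) (dat σ (G.anc (2 * k + 1) y)) (G.anc (2 * k + 1) y) y

/-- The transformed strategy of the player `1`. -/
noncomputable def phiII (σ : St (CG G C hC k)) : St G where
  f := phiIIf σ
  lev_f := fun y => by
    unfold phiIIf auxII
    split
    · exact resp_lev σ y _
    · split
      · exact resp_lev σ y _
      · split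
        · exact St.lev_f _ y
        · split
          · exact resp_lev σ y _
          · exact resp_lev σ y _
  par_f := fun y => by
    unfold phiIIf auxII
    split
    · exact resp_par σ y _
    · split
      · exact resp_par σ y _
      · split
        · exact St.par_f _ y
        · split
          · exact resp_par σ y _
          · exact resp_par σ y _

theorem phiII_loc {σ τ : St (CG G C hC k)} {n : ℕ}
    (h : ∀ x, (CG G C hC k).lev x ≤ n → σ.f x = τ.f x) {y : G.N} (hy : G.lev y ≤ n) :
    (phiII σ).f y = (phiII τ).f y := by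
  change phiIIf σ y = phiIIf τ y
  unfold phiIIf
  rw [resp_congr h hy]
  by_cases hl : G.lev y ≤ 2 * k
  · rw [if_pos hl, if_pos hl]
  · rw [if_neg hl, if_neg hl, dat_congr h (y := G.anc (2 * k + 1) y) (by
      rw [lev_anc (by omega)]; omega)]

theorem phiII_low (σ : St (CG G C hC k)) (x : (CG G C hC k).N)
    (hx : (CG G C hC k).lev x < 2 * k) :
    (phiII σ).f ((CP G C hC k).f x) = (CP G C hC k).f (σ.f x) := by
  obtain ⟨⟨z, d⟩, hv⟩ := x
  change G.lev z < 2 * k at hx
  have hd : d = (none, none) := val_low hv (le_of_lt hx)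
  subst hd
  change phiIIf σ z = (σ.f ⟨(z, (none, none)), hv⟩).1.1
  unfold phiIIf
  rw [if_pos (le_of_lt hx), resp_eq σ hv]

theorem phiII_lift (σ : St (CG G C hC k)) (y : Br G) (hy : Cons 1 (phiII σ) y) :
    ∃ x : Br (CG G C hC k), Cons 1 σ x ∧ (CP G C hC k).br x = y := by
  classical
  have hval0 : ∀ n, n ≤ 2 * k → Val G C k (y.x n) (none, none) := fun n hn =>
    Val.low _ (by rw [y.lev_x]; exact hn)
  have hlow : ∀ n, n % 2 = 1 → n ≤ 2 * k → y.x (n + 1) = resp σ (y.x n) (none, none) := by
    intro n hn hn'
    rw [hy n hn]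
    change phiIIf σ (y.x n) = _
    unfold phiIIf
    rw [if_pos (by rw [y.lev_x]; exact hn')]
  set x1 := y.x (2 * k + 1) with hx1
  have hx1l : G.lev x1 = 2 * k + 1 := y.lev_x _
  set V := VV C k x1 (dat σ x1) with hV
  have hhigh : ∀ n, n % 2 = 1 → 2 * k + 1 ≤ n →
      y.x (n + 1) = auxII C k (resp σ (y.x n)) (dat σ x1) x1 (y.x n) := by
    intro n hn hn'
    rw [hy n hn]
    change phiIIf σ (y.x n) = _
    unfold phiIIf
    rw [if_neg (by rw [y.lev_x]; omega), br_anc y hn']
  -- the elements of `V`
  have hVel : ∀ u ∈ V, QI G x1 (SU C k x1 (dat σ x1) u) ∧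
      dat σ x1 (some (SU C k x1 (dat σ x1) u), none) =
        (some (SU C k x1 (dat σ x1) u), some (Sum.inl u)) ∧
      resp σ x1 (some (SU C k x1 (dat σ x1) u), none) ∈ SU C k x1 (dat σ x1) u ∧
      u ∈ Esc G C (SU C k x1 (dat σ x1) u) ∧
      Ext G (resp σ x1 (some (SU C k x1 (dat σ x1) u), none)) u := by
    intro u hu
    obtain ⟨h1, h2⟩ := SU_spec hu
    obtain ⟨S1, h3, h4⟩ := val_one h1 hx1l
    simp only [Prod.mk.injEq, Option.some.injEq, and_true] at h3
    rw [← h3] at h4
    rcases dat_one σ h1 hx1l with ⟨u', h5, h6, h7, h8⟩ | ⟨S', h5, _⟩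
    · rw [h5] at h2
      simp only [Option.some.injEq, Sum.inl.injEq] at h2
      subst h2
      exact ⟨h4, h5, h6, h7, h8⟩
    · rw [h5] at h2
      simp only [Option.some.injEq, reduceCtorEq] at h2
  by_cases hA : ∃ n, 2 * k + 2 ≤ n ∧ y.x n ∈ V
  · set n0 := Nat.find hA with hn0
    obtain ⟨h3, h4⟩ := Nat.find_spec hA
    rw [← hn0] at h3 h4
    have hmin : ∀ m, 2 * k + 2 ≤ m → m < n0 → y.x m ∉ V := fun m hm1 hm2 hm3 =>
      Nat.find_min hA hm2 ⟨hm1, hm3⟩
    obtain ⟨hS, hd, hr, hu, hext⟩ := hVel _ h4
    set S := SU C k x1 (dat σ x1) (y.x n0) with hSdef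
    have hresp : resp σ x1 (some S, none) = y.x (2 * k + 2) := by
      rw [← hext.1, resp_lev, hx1l, br_anc y h3]
    rw [hresp] at hr
    have hv := val_esc_br y hS hr h3 hu
    refine exists_lift σ 1 y S (Sum.inl (y.x n0)) hv (fun n hn => ?_) (fun n hn => ?_)
    · rcases Nat.lt_or_ge (2 * k) n with h5 | h5
      · rcases Nat.lt_or_ge (2 * k + 1) n with h6 | h6
        · rw [DD_high (by omega)]
          rcases Nat.lt_or_ge n n0 with h8 | h8
          · have h7 := hv n
            rw [DD_high (by omega)] at h7
            exact (forced σ y (by omega) h8 h7).symm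
          · rw [hhigh n hn (by omega)]
            unfold auxII
            rw [if_pos (hit_of y h3 h4 h8), fstN_eq y h3 h4 hmin h8]
        · obtain rfl : n = 2 * k + 1 := by omega
          rw [DD_one]
          exact hresp.symm
      · rw [DD_low h5]
        exact hlow n hn h5
    · rcases Nat.lt_or_ge n (2 * k) with h5 | h5
      · rw [DD_low (by omega), DD_low (by omega)]
        exact dat_low σ (hval0 n (by omega)) (by rw [y.lev_x]; exact h5)
      · rcases Nat.lt_or_ge (2 * k + 1) n with h6 | h6
        · have h7 := hv n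
          rw [DD_high (by omega)] at h7
          rw [DD_high (by omega), DD_high (by omega)]
          exact dat_high σ h7 (by rw [y.lev_x]; omega)
        · obtain rfl : n = 2 * k + 1 := by omega
          rw [DD_one, DD_high (by omega)]
          exact hd
  · push Not at hA
    have hnoV : ∀ n, ¬ Hit G (2 * k + 2) V (y.x n) := by
      intro n hn
      obtain ⟨m, h1, _, h3⟩ := hit_imp y hn
      exact hA m h1 h3
    have hnoF : ∀ n, 2 * k + 1 ≤ n → ¬ Force G 1 V (y.x n) := by
      by_contra hcon
      push Not at hcon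
      set n1 := Nat.find hcon with hn1
      obtain ⟨h3, h4⟩ := Nat.find_spec hcon
      rw [← hn1] at h3 h4
      have hmin : ∀ m, 2 * k + 1 ≤ m → m < n1 →
          y.x m ∉ {z | Force G 1 V z} := fun m hm1 hm2 hm3 =>
        Nat.find_min hcon hm2 ⟨hm1, hm3⟩
      have h4' : y.x n1 ∈ {z | Force G 1 V z} := h4
      obtain ⟨n, h5, h6⟩ := tau_spec h4 y (by rw [y.lev_x]) (fun n hn hn0 => by
        rw [y.lev_x] at hn
        rw [hhigh n hn0 (by omega)]
        unfold auxII
        rw [if_neg (hnoV n), if_pos (hit_of y h3 h4' hn), fstN_eq y h3 h4' hmin hn])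
      rw [y.lev_x] at h5
      rcases Nat.lt_or_ge (2 * k + 1) n with h7 | h7
      · exact hA n (by omega) h6
      · obtain rfl : n = 2 * k + 1 := by omega
        have h8 := (hVel _ h6).2.2.2.2.2
        rw [resp_lev, ← hx1, hx1l] at h8
        omega
    set S := NL G 1 V Set.univ x1 with hSdef
    have hS : QI G x1 S := nl_qi (hnoF _ le_rfl)
    have hvS : Val G C k x1 (some S, none) := Val.one _ S hx1l hS
    have hnoF' : ∀ n, ¬ Hit G (2 * k + 1) {z | Force G 1 V z} (y.x n) := by
      intro n hn
      obtain ⟨m, h1, _, h3⟩ := hit_imp y hn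
      exact hnoF m h1 h3
    have hstep1 : y.x (2 * k + 2) = resp σ x1 (some S, none) := by
      rw [hhigh (2 * k + 1) (by omega) le_rfl]
      unfold auxII
      rw [if_neg (hnoV _), if_neg (hnoF' _), if_pos (y.lev_x _)]
    have hhigh' : ∀ n, n % 2 = 1 → 2 * k + 2 ≤ n →
        y.x (n + 1) = resp σ (y.x n) (dat σ x1 (some S, none)) := by
      intro n hn hn'
      rw [hhigh n hn (by omega)]
      unfold auxII
      rw [if_neg (hnoV _), if_neg (hnoF' _), if_neg (by rw [y.lev_x]; omega)]
    rcases dat_one σ hvS hx1l with ⟨u, h5, h6, h7, h8⟩ | ⟨S', h5, hS'⟩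
    · exfalso
      have hu : u ∈ V := ⟨S, hvS, by rw [h5]⟩
      exact h7.1.2.2 u h7.1.2.1 (ext_refl u) (force_self hu)
    · rw [← hstep1] at hS'
      rw [h5] at hhigh'
      have hmem : ∀ n, 2 * k + 2 ≤ n → y.x n ∈ S' := by
        intro n hn
        induction n, hn using Nat.le_induction with
        | base => exact hS'.mem
        | succ n hn ih =>
          rcases Nat.mod_two_eq_zero_or_one n with h0 | h0
          · have ihS : y.x n ∈ S := hS'.sub ih
            have hyS : y.x (n + 1) ∈ S := by
              refine ⟨trivial, ext_br y (by omega), fun w hw1 hw2 => ?_⟩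
              rcases ext_child_cases (by rw [y.lev_x, y.lev_x]) (y.par_x n) hw2 with rfl | hw3
              · exact hnoF _ (by omega)
              · exact ihS.2.2 w hw1 hw3
            exact hS'.even _ ih (by rw [y.lev_x]; exact h0) _ hyS (by rw [y.lev_x, y.lev_x])
              (y.par_x n)
          · have hv : Val G C k (y.x n) (some S, some (Sum.inr S')) := by
              refine Val.stay _ _ _ (by rw [y.lev_x]; exact hn) ?_ ?_ ih
              · rw [br_anc y (by omega)]; exact hS
              · rw [br_anc y hn]; exact hS'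
            have h1 := val_resp σ hv
            rw [dat_high σ hv (by rw [y.lev_x]; exact hn), ← hhigh' n h0 hn] at h1
            obtain ⟨S1, _, h2⟩ := val_high h1 (by rw [y.lev_x]; omega)
            rcases h2 with ⟨u, h3, _⟩ | ⟨S'', h3, _, h4⟩
            · simp only [Prod.mk.injEq, Option.some.injEq, reduceCtorEq, and_false] at h3
            · simp only [Prod.mk.injEq, Option.some.injEq, Sum.inr.injEq] at h3
              rw [h3.2]; exact h4
      have hv := val_stay_br y hS hS' hmem
      refine exists_lift σ 1 y S _ hv (fun n hn => ?_) (fun n hn => ?_)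
      · rcases Nat.lt_or_ge (2 * k) n with h6 | h6
        · rcases Nat.lt_or_ge (2 * k + 1) n with h7 | h7
          · rw [DD_high (by omega)]
            exact hhigh' n hn (by omega)
          · obtain rfl : n = 2 * k + 1 := by omega
            rw [DD_one]
            exact hstep1
        · rw [DD_low h6]
          exact hlow n hn h6
      · rcases Nat.lt_or_ge n (2 * k) with h6 | h6
        · rw [DD_low (by omega), DD_low (by omega)]
          exact dat_low σ (hval0 n (by omega)) (by rw [y.lev_x]; exact h6)
        · rcases Nat.lt_or_ge (2 * k + 1) n with h7 | h7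
          · have h8 := hv n
            rw [DD_high (by omega)] at h8
            rw [DD_high (by omega), DD_high (by omega)]
            exact dat_high σ h8 (by rw [y.lev_x]; omega)
          · obtain rfl : n = 2 * k + 1 := by omega
            rw [DD_one, DD_high (by omega)]
            exact h5

end BD92
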