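import Pool.Agent.LibBD92.Cl4

/-!
Open sets can be made clopen by coverings.
-/

namespace BD92

variable {G : GT}

/-- The covering by the auxiliary tree. -/
noncomputable def ClCov (G : GT) (C : G.N → Prop) (hC : ∀ y, C y → C (G.par y)) (k : ℕ) :
    Cov (CG G C hC k) G k where
  π := CP G C hC k
  inj := fun x y hx h => by
    obtain ⟨⟨x, d⟩, hv⟩ := x
    obtain ⟨⟨y, e⟩, hw⟩ := y
    have h' : x = y := h
    subst h'
    have h1 : d = (none, none) := val_low hv hx
    have h2 : e = (none, none) := val_low hw hx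
    subst h1 h2
    rfl
  surj := fun y hy => ⟨⟨(y, (none, none)), Val.low y hy⟩, rfl⟩
  φ := fun p σ => if p = 0 then phiI σ else phiII σ
  loc := fun p n σ τ h y hy => by
    by_cases hp : p = 0
    · simp only [if_pos hp]
      exact phiI_loc h hy
    · simp only [if_neg hp]
      exact phiII_loc h hy
  low := fun p σ x hx => by
    by_cases hp : p = 0
    · simp only [if_pos hp]
      exact phiI_low σ x hx
    · simp only [if_neg hp]
      exact phiII_low σ x hx
  lift := fun p hp σ y hy => by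
    by_cases hp0 : p = 0
    · subst hp0
      simp only [if_true] at hy
      exact phiI_lift σ y hy
    · obtain rfl : p = 1 := by omega
      simp only [one_ne_zero, if_false] at hy
      exact phiII_lift σ y hy

section

variable {C : G.N → Prop} {hC : ∀ y, C y → C (G.par y)} {k : ℕ}

theorem br_dat (x : Br (CG G C hC k)) (n : ℕ) (hn : 2 * k + 2 ≤ n) :
    (x.x n).1.2 = (x.x (2 * k + 2)).1.2 := by
  induction n, hn using Nat.le_induction with
  | base => rfl
  | succ n hn ih =>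
    have h1 := congrArg (fun p : (CG G C hC k).N => p.1.2) (x.par_x n)
    change trc k (G.lev (x.x (n + 1)).1.1) (x.x (n + 1)).1.2 = (x.x n).1.2 at h1
    have h2 : G.lev (x.x (n + 1)).1.1 = n + 1 := x.lev_x (n + 1)
    rw [h2] at h1
    simp only [trc, if_neg (show ¬ n + 1 ≤ 2 * k + 1 by omega),
      if_neg (show ¬ n + 1 ≤ 2 * k + 2 by omega)] at h1
    rw [← ih, ← h1]

theorem br_esc (x : Br (CG G C hC k)) {S : Set G.N} {u : G.N}
    (h : (x.x (2 * k + 2)).1.2 = (some S, some (Sum.inl u))) :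
    ((CP G C hC k).br x).x (G.lev u) = u ∧ ¬ C u := by
  have hl : ∀ n, G.lev (x.x n).1.1 = n := fun n => x.lev_x n
  obtain ⟨S1, _, h1⟩ := val_high (x.x (2 * k + 2)).2 (by rw [hl])
  have h2 : 2 * k + 2 ≤ G.lev u ∧ ¬ C u := by
    rcases h1 with ⟨u', h3, _, h4, h5, _⟩ | ⟨S', h3, _⟩
    · rw [h] at h3
      simp only [Prod.mk.injEq, Option.some.injEq, Sum.inl.injEq] at h3
      obtain ⟨_, rfl⟩ := h3
      refine ⟨?_, h4.2.2⟩
      have h6 := h5.2
      rw [anc_top (hl _), hl] at h6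
      exact h6
    · rw [h] at h3
      simp only [Prod.mk.injEq, Option.some.injEq, reduceCtorEq, and_false] at h3
  refine ⟨?_, h2.2⟩
  change (x.x (G.lev u)).1.1 = u
  obtain ⟨S2, _, h7⟩ := val_high (x.x (G.lev u)).2 (by rw [hl]; exact h2.1)
  rw [br_dat x _ h2.1, h] at h7
  rcases h7 with ⟨u', h3, _, _, _, h5⟩ | ⟨S', h3, _⟩
  · simp only [Prod.mk.injEq, Option.some.injEq, Sum.inl.injEq] at h3
    obtain ⟨_, rfl⟩ := h3
    rcases h5 with h5 | h5
    · have h6 := h5.1
      rw [anc_of_le (by rw [hl])] at h6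
      exact h6.symm
    · have h6 := h5.1
      rw [anc_of_le (by rw [hl])] at h6
      exact h6
  · simp only [Prod.mk.injEq, Option.some.injEq, reduceCtorEq, and_false] at h3

theorem br_stay (x : Br (CG G C hC k)) {S S' : Set G.N}
    (h : (x.x (2 * k + 2)).1.2 = (some S, some (Sum.inr S'))) (n : ℕ) :
    C (((CP G C hC k).br x).x n) := by
  have hl : ∀ n, G.lev (x.x n).1.1 = n := fun n => x.lev_x n
  have h1 : ∀ n, 2 * k + 2 ≤ n → C (((CP G C hC k).br x).x n) := by
    intro n hn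
    obtain ⟨S2, _, h7⟩ := val_high (x.x n).2 (by rw [hl]; exact hn)
    rw [br_dat x _ hn, h] at h7
    rcases h7 with ⟨u', h3, _⟩ | ⟨S1, h3, h4, h5⟩
    · simp only [Prod.mk.injEq, Option.some.injEq, reduceCtorEq, and_false] at h3
    · exact h4.inC _ h5
  have h2 : ∀ d n, n + d = 2 * k + 2 → C (((CP G C hC k).br x).x n) := by
    intro d
    induction d with
    | zero => intro n hn; exact h1 n (by omega)
    | succ d ih =>
      intro n hn
      rw [← ((CP G C hC k).br x).par_x n]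
      exact hC _ (ih (n + 1) (by omega))
  rcases Nat.lt_or_ge n (2 * k + 2) with h3 | h3
  · exact h2 (2 * k + 2 - n) n (by omega)
  · exact h1 n h3

theorem br_cases (x : Br (CG G C hC k)) :
    (∃ S u, (x.x (2 * k + 2)).1.2 = (some S, some (Sum.inl u))) ∨
    (∃ S S', (x.x (2 * k + 2)).1.2 = (some S, some (Sum.inr S'))) := by
  have hl : ∀ n, G.lev (x.x n).1.1 = n := fun n => x.lev_x n
  obtain ⟨S1, _, h1⟩ := val_high (x.x (2 * k + 2)).2 (by rw [hl])
  rcases h1 with ⟨u', h3, _⟩ | ⟨S', h3, _⟩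
  · exact Or.inl ⟨_, _, h3⟩
  · exact Or.inr ⟨_, _, h3⟩

end

theorem open_unr {X : Set (Br G)} (hX : OpenS X) : Unr G X := by
  intro k
  let C : G.N → Prop := fun y => ∃ x : Br G, x ∉ X ∧ x.x (G.lev y) = y
  have hC : ∀ y, C y → C (G.par y) := by
    rintro y ⟨x, hx, hxy⟩
    refine ⟨x, hx, ?_⟩
    rw [G.lev_par]
    rcases Nat.eq_zero_or_pos (G.lev y) with h | h
    · have hy : y = G.root := G.root_unique y h
      rw [h, hy, par_root]
      exact br_zero x
    · obtain ⟨m, hm⟩ : ∃ m, G.lev y = m + 1 := ⟨G.lev y - 1, by omega⟩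
      rw [hm] at hxy ⊢
      rw [Nat.add_sub_cancel, ← x.par_x, hxy]
  have hcl : ∀ x : Br G, (∀ n, C (x.x n)) → x ∉ X := by
    intro x hx hxX
    obtain ⟨n, hn⟩ := hX x hxX
    obtain ⟨y, hy, hyx⟩ := hx n
    rw [x.lev_x] at hyx
    exact hy (hn y hyx)
  have hcl' : ∀ x : Br G, x ∉ X → ∀ n, C (x.x n) := fun x hx n =>
    ⟨x, hx, by rw [x.lev_x]⟩
  have hin : ∀ (x : Br (CG G C hC k)) (S : Set G.N) (u : G.N),
      (x.x (2 * k + 2)).1.2 = (some S, some (Sum.inl u)) → (CP G C hC k).br x ∈ X := by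
    intro x S u h
    by_contra hcon
    obtain ⟨h1, h2⟩ := br_esc x h
    apply h2
    have := hcl' _ hcon (G.lev u)
    rw [h1] at this
    exact this
  have hout : ∀ (x : Br (CG G C hC k)) (S S' : Set G.N),
      (x.x (2 * k + 2)).1.2 = (some S, some (Sum.inr S')) → (CP G C hC k).br x ∉ X :=
    fun x S S' h => hcl _ (br_stay x h)
  refine ⟨CG G C hC k, ClCov G C hC k, ?_, ?_⟩
  · intro x hx
    refine ⟨2 * k + 2, fun y hy => ?_⟩
    rcases br_cases x with ⟨S, u, h⟩ | ⟨S, S', h⟩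
    · exact hin y S u (by rw [hy]; exact h)
    · exact absurd hx (hout x S S' h)
  · intro x hx
    refine ⟨2 * k + 2, fun y hy => ?_⟩
    rcases br_cases x with ⟨S, u, h⟩ | ⟨S, S', h⟩
    · exact absurd (hin x S u h) hx
    · exact hout y S S' (by rw [hy]; exact h)

theorem open_uu {X : Set (Br G)} (hX : OpenS X) : UU G X := fun _ h =>
  open_unr (openS_preimage h hX)

end BD92
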