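import Pool.Agent.LibBD92.Force

/-!
Composition of coverings, transfer of determinacy, level preserving maps.
-/

namespace BD92

variable {G : GT}

/-- The identity map. -/
def LMap.id (G : GT) : LMap G G := ⟨fun x => x, fun _ => rfl, fun _ => rfl⟩

/-- Composition of maps. -/
def LMap.comp {G2 G1 G0 : GT} (h : LMap G1 G0) (h' : LMap G2 G1) : LMap G2 G0 :=
  ⟨fun x => h.f (h'.f x), fun x => by rw [h.lev_f, h'.lev_f], fun x => by
    rw [h'.par_f, h.par_f]⟩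

theorem LMap.comp_br {G2 G1 G0 : GT} (h : LMap G1 G0) (h' : LMap G2 G1) (x : Br G2) :
    (h.comp h').br x = h.br (h'.br x) := rfl

theorem LMap.id_br (x : Br G) : (LMap.id G).br x = x := rfl

theorem openS_preimage {G' : GT} (h : LMap G' G) {X : Set (Br G)} (hX : OpenS X) :
    OpenS {x : Br G' | h.br x ∈ X} := by
  intro x hx
  obtain ⟨n, hn⟩ := hX _ hx
  exact ⟨n, fun y hy => hn _ (congrArg h.f hy)⟩

/-- Composition of coverings. -/
def Cov.comp {G2 G1 G0 : GT} {k : ℕ} (c : Cov G1 G0 k) (c' : Cov G2 G1 k) : Cov G2 G0 k where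
  π := c.π.comp c'.π
  inj := fun x y hx h => c'.inj x y hx (c.inj _ _ (by rw [c'.π.lev_f]; exact hx) h)
  surj := fun y hy => by
    obtain ⟨x, hx⟩ := c.surj y hy
    obtain ⟨z, hz⟩ := c'.surj x (by rw [← c.π.lev_f, hx]; exact hy)
    exact ⟨z, by change c.π.f (c'.π.f z) = y; rw [hz, hx]⟩
  φ := fun p σ => c.φ p (c'.φ p σ)
  loc := fun p n σ τ h y hy => c.loc p n _ _ (c'.loc p n σ τ h) y hy
  low := fun p σ x hx => by
    change (c.φ p (c'.φ p σ)).f (c.π.f (c'.π.f x)) = c.π.f (c'.π.f (σ.f x))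
    rw [c.low p _ _ (by rw [c'.π.lev_f]; exact hx), c'.low p _ _ hx]
  lift := fun p hp σ y hy => by
    obtain ⟨x, hx, hxy⟩ := c.lift p hp _ y hy
    obtain ⟨z, hz, hzx⟩ := c'.lift p hp _ x hx
    exact ⟨z, hz, by rw [LMap.comp_br, hzx, hxy]⟩

theorem det_of_cov {G' : GT} {k : ℕ} (c : Cov G' G k) {X : Set (Br G)}
    (h : Det {x : Br G' | c.π.br x ∈ X}) : Det X := by
  rcases h with ⟨σ, hσ⟩ | ⟨σ, hσ⟩
  · left
    refine ⟨c.φ 0 σ, fun y hy => ?_⟩
    obtain ⟨x, hx, hxy⟩ := c.lift 0 (by omega) σ y hy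
    have := hσ x hx
    simp only [Set.mem_ofPred_eq] at this
    rwa [hxy] at this
  · right
    refine ⟨c.φ 1 σ, fun y hy hyX => ?_⟩
    obtain ⟨x, hx, hxy⟩ := c.lift 1 (by omega) σ y hy
    exact hσ x hx (by simp only [Set.mem_ofPred_eq]; rw [hxy]; exact hyX)

theorem det_of_uu {X : Set (Br G)} (h : UU G X) : Det X := by
  obtain ⟨G', c, h1, _⟩ := h G (LMap.id G) 0
  exact det_of_cov c (open_det h1)

theorem uu_compl {X : Set (Br G)} (h : UU G X) : UU G Xᶜ := by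
  intro G' h' k
  obtain ⟨G'', c, h1, h2⟩ := h G' h' k
  refine ⟨G'', c, h2, ?_⟩
  intro x hx
  have hx' : c.π.br x ∈ {x | h'.br x ∈ X} := by
    by_contra hcon
    exact hx hcon
  obtain ⟨n, hn⟩ := h1 x hx'
  exact ⟨n, fun y hy hcon => hcon (hn y hy)⟩

end BD92
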