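import Mathlib

/-!
Game trees, branches, strategies, coverings (for the proof of Borel determinacy).
-/

namespace BD92

/-- Game trees: nodes with a level and a parent; there is one node of level zero, and every node
has a child. -/
structure GT where
  N : Type
  lev : N → ℕ
  par : N → N
  root : N
  lev_root : lev root = 0
  root_unique : ∀ x, lev x = 0 → x = root
  lev_par : ∀ x, lev (par x) = lev x - 1
  child : ∀ x, ∃ y, lev y = lev x + 1 ∧ par y = x

variable {G : GT}

/-- Infinite branches. -/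
@[ext]
structure Br (G : GT) where
  x : ℕ → G.N
  lev_x : ∀ n, G.lev (x n) = n
  par_x : ∀ n, G.par (x (n + 1)) = x n

/-- Strategies: a child for every node (only the nodes where the player moves matter). -/
structure St (G : GT) where
  f : G.N → G.N
  lev_f : ∀ x, G.lev (f x) = G.lev x + 1
  par_f : ∀ x, G.par (f x) = x

/-- The branch `x` follows the strategy `σ` of the player `p` (`0` moves at the nodes of even
level, `1` at the nodes of odd level). -/
def Cons (p : ℕ) (σ : St G) (x : Br G) : Prop := ∀ n, n % 2 = p → x.x (n + 1) = σ.f (x.x n)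

/-- The game with payoff set `X` for the player `0` is determined. -/
def Det (X : Set (Br G)) : Prop :=
  (∃ σ : St G, ∀ x, Cons 0 σ x → x ∈ X) ∨ (∃ σ : St G, ∀ x, Cons 1 σ x → x ∉ X)

/-- Open sets of branches. -/
def OpenS (X : Set (Br G)) : Prop := ∀ x ∈ X, ∃ n, ∀ y : Br G, y.x n = x.x n → y ∈ X

/-- The ancestor of level `m` (the node itself if its level is at most `m`). -/
def GT.anc (G : GT) (m : ℕ) (y : G.N) : G.N := G.par^[G.lev y - m] y

/-- Level preserving maps of trees. -/
structure LMap (G' G : GT) where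
  f : G'.N → G.N
  lev_f : ∀ x, G.lev (f x) = G'.lev x
  par_f : ∀ x, f (G'.par x) = G.par (f x)

/-- The map on branches. -/
def LMap.br {G' G : GT} (h : LMap G' G) (x : Br G') : Br G :=
  ⟨fun n => h.f (x.x n), fun n => by rw [h.lev_f, x.lev_x], fun n => by
    rw [← h.par_f, x.par_x]⟩

/-- A `k`-covering: strategies in `G'` are transformed into strategies in `G`. -/
structure Cov (G' G : GT) (k : ℕ) where
  π : LMap G' G
  inj : ∀ x y, G'.lev x ≤ 2 * k → π.f x = π.f y → x = y
  surj : ∀ y : G.N, G.lev y ≤ 2 * k → ∃ x, π.f x = y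
  φ : ℕ → St G' → St G
  loc : ∀ (p n : ℕ) (σ τ : St G'), (∀ x, G'.lev x ≤ n → σ.f x = τ.f x) →
    ∀ y, G.lev y ≤ n → (φ p σ).f y = (φ p τ).f y
  low : ∀ (p : ℕ) (σ : St G') (x : G'.N), G'.lev x < 2 * k →
    (φ p σ).f (π.f x) = π.f (σ.f x)
  lift : ∀ p, p < 2 → ∀ (σ : St G') (y : Br G), Cons p (φ p σ) y →
    ∃ x : Br G', Cons p σ x ∧ π.br x = y

/-- For every `k` some `k`-covering makes `X` clopen. -/
def Unr (G : GT) (X : Set (Br G)) : Prop :=
  ∀ k, ∃ (G' : GT) (c : Cov G' G k),
    OpenS {x : Br G' | c.π.br x ∈ X} ∧ OpenS {x : Br G' | c.π.br x ∉ X}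

/-- All the preimages of `X` under level preserving maps can be made clopen by coverings. -/
def UU (G : GT) (X : Set (Br G)) : Prop :=
  ∀ (G' : GT) (h : LMap G' G), Unr G' {x | h.br x ∈ X}

/-- The player `p` can force from the node `z` that the set `U` is reached. -/
def Force (G : GT) (p : ℕ) (U : Set G.N) (z : G.N) : Prop :=
  ∃ τ : St G, ∀ x : Br G, x.x (G.lev z) = z →
    (∀ n, G.lev z ≤ n → n % 2 = p → x.x (n + 1) = τ.f (x.x n)) →
    ∃ n, G.lev z ≤ n ∧ x.x n ∈ U

/-! ### ancestors -/

theorem par_root (G : GT) : G.par G.root = G.root := by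
  refine G.root_unique _ ?_
  rw [G.lev_par, G.lev_root]

theorem lev_iter (G : GT) (d : ℕ) (y : G.N) : G.lev (G.par^[d] y) = G.lev y - d := by
  induction d generalizing y with
  | zero => rfl
  | succ d ih => rw [Function.iterate_succ_apply, ih, G.lev_par]; omega

theorem lev_anc {m : ℕ} {y : G.N} (h : m ≤ G.lev y) : G.lev (G.anc m y) = m := by
  unfold GT.anc
  rw [lev_iter]; omega

theorem anc_of_le {m : ℕ} {y : G.N} (h : G.lev y ≤ m) : G.anc m y = y := by
  unfold GT.anc
  rw [Nat.sub_eq_zero_of_le h]; rfl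

@[simp] theorem anc_self (y : G.N) : G.anc (G.lev y) y = y := anc_of_le le_rfl

theorem anc_par {m : ℕ} {y : G.N} (h : m < G.lev y) : G.anc m (G.par y) = G.anc m y := by
  unfold GT.anc
  rw [G.lev_par, ← Function.iterate_succ_apply]
  congr 1
  congr 1
  omega

theorem par_anc {m : ℕ} {y : G.N} (h : m < G.lev y) : G.par (G.anc (m + 1) y) = G.anc m y := by
  unfold GT.anc
  rw [← Function.iterate_succ_apply' G.par]
  congr 2
  omega

theorem anc_anc {m n : ℕ} {y : G.N} (h : m ≤ n) : G.anc m (G.anc n y) = G.anc m y := by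
  rcases Nat.le_total (G.lev y) n with h' | h'
  · rw [anc_of_le h']
  · unfold GT.anc
    rw [lev_iter, ← Function.iterate_add_apply]
    congr 2
    omega

theorem br_zero (x : Br G) : x.x 0 = G.root := G.root_unique _ (x.lev_x 0)

theorem br_anc (x : Br G) {m n : ℕ} (h : m ≤ n) : G.anc m (x.x n) = x.x m := by
  induction n with
  | zero =>
    obtain rfl : m = 0 := by omega
    exact anc_of_le (by rw [x.lev_x])
  | succ n ih =>
    rcases Nat.lt_or_ge n m with h' | h'
    · obtain rfl : m = n + 1 := by omega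
      exact anc_of_le (by rw [x.lev_x])
    · rw [← anc_par (by rw [x.lev_x]; omega), x.par_x, ih h']

/-- `y` extends `x`. -/
def Ext (G : GT) (x y : G.N) : Prop := G.anc (G.lev x) y = x ∧ G.lev x ≤ G.lev y

theorem ext_refl (x : G.N) : Ext G x x := ⟨anc_self x, le_rfl⟩

theorem ext_trans {x y z : G.N} (h : Ext G x y) (h' : Ext G y z) : Ext G x z := by
  refine ⟨?_, h.2.trans h'.2⟩
  rw [← anc_anc h.2 (y := z), h'.1, h.1]

theorem ext_br (x : Br G) {m n : ℕ} (h : m ≤ n) : Ext G (x.x m) (x.x n) := by
  refine ⟨?_, by rw [x.lev_x, x.lev_x]; exact h⟩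
  rw [x.lev_x]; exact br_anc x h

theorem ext_anc {m : ℕ} (y : G.N) : Ext G (G.anc m y) y := by
  rcases Nat.le_total m (G.lev y) with h | h
  · exact ⟨by rw [lev_anc h], by rw [lev_anc h]; exact h⟩
  · rw [anc_of_le h]; exact ext_refl y

theorem ext_child {x y : G.N} (h : G.lev y = G.lev x + 1) (h' : G.par y = x) : Ext G x y := by
  refine ⟨?_, by omega⟩
  rw [← anc_par (by omega), h', anc_self]

theorem ext_par {x y : G.N} (h : Ext G x y) (hne : y ≠ x) : Ext G x (G.par y) := by
  have hlt : G.lev x < G.lev y := by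
    rcases Nat.lt_or_ge (G.lev x) (G.lev y) with h' | h'
    · exact h'
    · exfalso
      have := h.1
      rw [anc_of_le h'] at this
      exact hne this
  refine ⟨?_, by rw [G.lev_par]; omega⟩
  rw [anc_par hlt]; exact h.1

/-- two nodes below a common node are comparable in the order of levels. -/
theorem ext_of_ext {x y z : G.N} (h : Ext G x z) (h' : Ext G y z) (hl : G.lev x ≤ G.lev y) :
    Ext G x y := by
  refine ⟨?_, hl⟩
  rw [← h'.1, anc_anc hl]; exact h.1

theorem exists_st (G : GT) : ∃ σ : St G, True := by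
  choose f h1 h2 using G.child
  exact ⟨⟨f, h1, h2⟩, trivial⟩

noncomputable instance : Inhabited (St G) := ⟨(exists_st G).choose⟩

/-- change a strategy at one node. -/
theorem exists_update (τ : St G) {z z' : G.N} (h1 : G.lev z' = G.lev z + 1)
    (h2 : G.par z' = z) : ∃ τ' : St G, τ'.f z = z' ∧ ∀ y, y ≠ z → τ'.f y = τ.f y := by
  classical
  refine ⟨⟨Function.update τ.f z z', fun x => ?_, fun x => ?_⟩, ?_, fun y hy => ?_⟩
  · by_cases h : x = z
    · subst h; rw [Function.update_self]; exact h1
    · rw [Function.update_of_ne h]; exact τ.lev_f x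
  · by_cases h : x = z
    · subst h; rw [Function.update_self]; exact h2
    · rw [Function.update_of_ne h]; exact τ.par_f x
  · simp
  · simp [Function.update_of_ne hy]

end BD92
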