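import Pool.Agent.LibBD92.Defs

/-!
Forcing a set to be reached; open games are determined.
-/

namespace BD92

variable {G : GT}

theorem force_self {p : ℕ} {U : Set G.N} {z : G.N} (h : z ∈ U) : Force G p U z :=
  ⟨default, fun x hx _ => ⟨G.lev z, le_rfl, by rw [hx]; exact h⟩⟩

theorem force_own {p : ℕ} {U : Set G.N} {z z' : G.N} (hp : G.lev z % 2 = p)
    (h1 : G.lev z' = G.lev z + 1) (h2 : G.par z' = z) (h : Force G p U z') :
    Force G p U z := by
  obtain ⟨τ, hτ⟩ := h
  obtain ⟨τ', h3, h4⟩ := exists_update τ h1 h2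
  refine ⟨τ', fun x hx hc => ?_⟩
  have h5 : x.x (G.lev z') = z' := by
    rw [h1, hc _ le_rfl hp, hx, h3]
  obtain ⟨n, hn, hnU⟩ := hτ x h5 (fun n hn hnp => by
    rw [hc n (by omega) hnp]
    refine h4 _ fun hcon => ?_
    have := x.lev_x n
    rw [hcon] at this
    omega)
  exact ⟨n, by omega, hnU⟩

theorem force_opp {p : ℕ} {U : Set G.N} {z : G.N}
    (h : ∀ z', G.lev z' = G.lev z + 1 → G.par z' = z → Force G p U z')
    (hp : G.lev z % 2 ≠ p) : Force G p U z := by
  classical
  choose τ hτ using h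
  refine ⟨⟨fun y => if hy : G.lev (G.anc (G.lev z + 1) y) = G.lev z + 1 ∧
      G.par (G.anc (G.lev z + 1) y) = z then (τ _ hy.1 hy.2).f y
      else (default : St G).f y, fun y => ?_, fun y => ?_⟩, fun x hx hc => ?_⟩
  · by_cases hy : G.lev (G.anc (G.lev z + 1) y) = G.lev z + 1 ∧
      G.par (G.anc (G.lev z + 1) y) = z
    · rw [dif_pos hy]; exact (τ _ hy.1 hy.2).lev_f y
    · rw [dif_neg hy]; exact (default : St G).lev_f y
  · by_cases hy : G.lev (G.anc (G.lev z + 1) y) = G.lev z + 1 ∧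
      G.par (G.anc (G.lev z + 1) y) = z
    · rw [dif_pos hy]; exact (τ _ hy.1 hy.2).par_f y
    · rw [dif_neg hy]; exact (default : St G).par_f y
  · have h1 : G.lev (x.x (G.lev z + 1)) = G.lev z + 1 := x.lev_x _
    have h2 : G.par (x.x (G.lev z + 1)) = z := by rw [x.par_x, hx]
    obtain ⟨n, hn, hnU⟩ := hτ _ h1 h2 x (by rw [h1]) (fun n hn hnp => by
      rw [h1] at hn
      rw [hc n (by omega) hnp]
      have hanc : G.anc (G.lev z + 1) (x.x n) = x.x (G.lev z + 1) := br_anc x hn
      have hy : G.lev (G.anc (G.lev z + 1) (x.x n)) = G.lev z + 1 ∧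
          G.par (G.anc (G.lev z + 1) (x.x n)) = z := by
        rw [hanc]; exact ⟨h1, h2⟩
      simp only [dif_pos hy]
      congr 2)
    exact ⟨n, by rw [h1] at hn; omega, hnU⟩

theorem open_det {X : Set (Br G)} (hX : OpenS X) : Det X := by
  classical
  let U : Set G.N := {z | ∀ x : Br G, x.x (G.lev z) = z → x ∈ X}
  by_cases hr : Force G 0 U G.root
  · left
    obtain ⟨τ, hτ⟩ := hr
    refine ⟨τ, fun x hx => ?_⟩
    obtain ⟨n, _, hn⟩ := hτ x (by rw [G.lev_root]; exact br_zero x)
      fun n _ hn => hx n hn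
    exact hn x (by rw [x.lev_x])
  · right
    have hch : ∀ z : G.N, ∃ z', G.lev z' = G.lev z + 1 ∧ G.par z' = z ∧
        (G.lev z % 2 = 1 → ¬ Force G 0 U z → ¬ Force G 0 U z') := by
      intro z
      by_cases h : G.lev z % 2 = 1 ∧ ¬ Force G 0 U z
      · by_contra hcon
        push Not at hcon
        refine h.2 (force_opp (fun z' h1 h2 => ?_) (by omega))
        exact (hcon z' h1 h2).2.2
      · obtain ⟨z', h1, h2⟩ := G.child z
        exact ⟨z', h1, h2, fun h3 h4 => absurd ⟨h3, h4⟩ h⟩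
    choose f h1 h2 h3 using hch
    refine ⟨⟨f, h1, h2⟩, fun x hx hxX => ?_⟩
    have hnot : ∀ n, ¬ Force G 0 U (x.x n) := by
      intro n
      induction n with
      | zero => rw [br_zero]; exact hr
      | succ n ih =>
        rcases Nat.mod_two_eq_zero_or_one n with h | h
        · intro hcon
          refine ih (force_own (by rw [x.lev_x]; exact h) ?_ (x.par_x n) hcon)
          rw [x.lev_x, x.lev_x]
        · rw [hx n h]
          exact h3 _ (by rw [x.lev_x]; exact h) ih
    obtain ⟨n, hn⟩ := hX x hxX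
    refine hnot n (force_self fun y hy => hn y ?_)
    rw [x.lev_x] at hy
    exact hy

end BD92
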