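import Pool.Agent.LibBD92.Lim
import Pool.Agent.LibBD92.Cl5

/-!
Countable unions.
-/

namespace BD92

variable {G : GT}

theorem openS_iUnion {X : ℕ → Set (Br G)} (h : ∀ i, OpenS (X i)) : OpenS (⋃ i, X i) := by
  intro x hx
  obtain ⟨i, hi⟩ := Set.mem_iUnion.1 hx
  obtain ⟨n, hn⟩ := h i x hi
  exact ⟨n, fun y hy => Set.mem_iUnion.2 ⟨i, hn y hy⟩⟩

theorem uu_iUnion {X : ℕ → Set (Br G)} (hX : ∀ i, UU G (X i)) : UU G (⋃ i, X i) := by
  intro G' h k
  have hstep : ∀ (i : ℕ) (H : GT) (m : LMap H G'), ∃ (H' : GT) (c : Cov H' H (k + i)),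
      OpenS {x : Br H' | c.π.br x ∈ {x : Br H | (h.comp m).br x ∈ X i}} ∧
      OpenS {x : Br H' | c.π.br x ∉ {x : Br H | (h.comp m).br x ∈ X i}} := fun i H m =>
    hX i H (h.comp m) (k + i)
  choose F c h1 _ using hstep
  let s : ℕ → Σ H : GT, LMap H G' := fun i =>
    Nat.rec (motive := fun _ => Σ H : GT, LMap H G') ⟨G', LMap.id G'⟩
      (fun i p => ⟨F i p.1 p.2, p.2.comp (c i p.1 p.2).π⟩) i
  let Gs : ℕ → GT := fun i => (s i).1
  let cs : ∀ i, Cov (Gs (i + 1)) (Gs i) (k + i) := fun i => c i (s i).1 (s i).2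
  have hK : Monotone fun i => k + i := fun a b hab => Nat.add_le_add_left hab k
  have hK' : ∀ i, i ≤ k + i := fun i => Nat.le_add_left i k
  have hcomm : ∀ (i : ℕ) (t : Thr cs), (s i).2.f (t.1 i) = t.1 0 := by
    intro i t
    induction i with
    | zero => rfl
    | succ i ih =>
      rw [← ih, ← t.2 i]
      rfl
  have hopen : OpenS {x : Br (LimG cs hK hK') |
      h.br ((LimCov cs hK hK').π.br x) ∈ ⋃ i, X i} := by
    have h2 : ∀ i, OpenS {x : Br (LimG cs hK hK') |
        h.br ((LimCov cs hK hK').π.br x) ∈ X i} := by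
      intro i
      have h3 := openS_preimage (LimP cs hK hK' (i + 1)) (h1 i (s i).1 (s i).2)
      have h4 : ∀ x : Br (LimG cs hK hK'),
          (h.comp (s i).2).br ((c i (s i).1 (s i).2).π.br ((LimP cs hK hK' (i + 1)).br x)) =
            h.br ((LimCov cs hK hK').π.br x) := by
        intro x
        refine Br.ext (funext fun n => ?_)
        change h.f ((s i).2.f ((cs i).π.f ((x.x n).1 (i + 1)))) = h.f ((x.x n).1 0)
        rw [(x.x n).2 i, hcomm i (x.x n)]
      have h5 : {x : Br (LimG cs hK hK') | h.br ((LimCov cs hK hK').π.br x) ∈ X i} =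
          {x : Br (LimG cs hK hK') | (LimP cs hK hK' (i + 1)).br x ∈
            {x : Br (F i (s i).1 (s i).2) | (c i (s i).1 (s i).2).π.br x ∈
              {x : Br (s i).1 | (h.comp (s i).2).br x ∈ X i}}} := by
        ext x
        change h.br ((LimCov cs hK hK').π.br x) ∈ X i ↔
          (h.comp (s i).2).br ((c i (s i).1 (s i).2).π.br ((LimP cs hK hK' (i + 1)).br x)) ∈ X i
        rw [h4 x]
      rw [h5]
      exact h3
    have h6 := openS_iUnion h2
    have h7 : {x : Br (LimG cs hK hK') | h.br ((LimCov cs hK hK').π.br x) ∈ ⋃ i, X i} =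
        ⋃ i, {x : Br (LimG cs hK hK') | h.br ((LimCov cs hK hK').π.br x) ∈ X i} := by
      ext x
      simp only [Set.mem_iUnion, Set.mem_ofPred_eq]
    rw [h7]
    exact h6
  obtain ⟨L', c', h8, h9⟩ := open_unr hopen k
  exact ⟨L', (LimCov cs hK hK').comp c', h8, h9⟩

end BD92
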