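import Pool.Agent.LibBD92.Comp

/-!
The limit of a sequence of coverings.
-/

namespace BD92

/-- Threads: the nodes of the limit tree. -/
def Thr {K : ℕ → ℕ} {G : ℕ → GT} (c : ∀ i, Cov (G (i + 1)) (G i) (K i)) : Type :=
  {t : ∀ i, (G i).N // ∀ i, (c i).π.f (t (i + 1)) = t i}

theorem thr_lev {K : ℕ → ℕ} {G : ℕ → GT} {c : ∀ i, Cov (G (i + 1)) (G i) (K i)} (t : Thr c)
    (i : ℕ) : (G i).lev (t.1 i) = (G 0).lev (t.1 0) := by
  induction i with
  | zero => rfl
  | succ i ih => rw [← ih, ← t.2 i, (c i).π.lev_f]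

theorem exists_thr (i : ℕ) : ∀ {K : ℕ → ℕ} {G : ℕ → GT}
    (c : ∀ i, Cov (G (i + 1)) (G i) (K i)) (_ : Monotone K) (y : (G i).N),
    (G i).lev y ≤ 2 * K i → ∃ t : Thr c, t.1 i = y := by
  induction i with
  | zero =>
    intro K G c hK y hy
    have hstep : ∀ (j : ℕ) (x : {x : (G j).N // (G j).lev x = (G 0).lev y}),
        ∃ x' : {x : (G (j + 1)).N // (G (j + 1)).lev x = (G 0).lev y},
          (c j).π.f x'.1 = x.1 := by
      intro j x
      have hle : K 0 ≤ K j := hK (Nat.zero_le j)
      obtain ⟨x', hx'⟩ := (c j).surj x.1 (by rw [x.2]; omega)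
      exact ⟨⟨x', by rw [← (c j).π.lev_f, hx', x.2]⟩, hx'⟩
    choose f hf using hstep
    let s : ∀ j, {x : (G j).N // (G j).lev x = (G 0).lev y} := fun j =>
      Nat.rec (motive := fun j => {x : (G j).N // (G j).lev x = (G 0).lev y}) ⟨y, rfl⟩
        (fun j x => f j x) j
    exact ⟨⟨fun j => (s j).1, fun j => hf j (s j)⟩, rfl⟩
  | succ i ih =>
    intro K G c hK y hy
    obtain ⟨t, ht⟩ := ih (K := fun j => K (j + 1)) (G := fun j => G (j + 1))
      (fun j => c (j + 1)) (fun a b hab => hK (by omega)) y hy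
    let s : ∀ j, (G j).N := fun j =>
      Nat.casesOn (motive := fun j => (G j).N) j ((c 0).π.f (t.1 0)) (fun j => t.1 j)
    refine ⟨⟨s, fun j => ?_⟩, ht⟩
    cases j with
    | zero => rfl
    | succ j => exact t.2 j

theorem thr_ext {K : ℕ → ℕ} {G : ℕ → GT} {c : ∀ i, Cov (G (i + 1)) (G i) (K i)}
    (hK : Monotone K) {t t' : Thr c} {i : ℕ} (h : t.1 i = t'.1 i)
    (hl : (G i).lev (t.1 i) ≤ 2 * K i) : t = t' := by
  have up : ∀ d, t.1 (i + d) = t'.1 (i + d) := by
    intro d
    induction d with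
    | zero => exact h
    | succ d ih =>
      refine (c (i + d)).inj _ _ ?_ ?_
      · have h1 := thr_lev t (i + d + 1)
        have h2 := thr_lev t i
        have h3 : K i ≤ K (i + d) := hK (by omega)
        change (G (i + d + 1)).lev (t.1 (i + d + 1)) ≤ _
        omega
      · have h1 := t.2 (i + d)
        have h2 := t'.2 (i + d)
        exact h1.trans (ih.trans h2.symm)
  have down : ∀ d j, j + d = i → t.1 j = t'.1 j := by
    intro d
    induction d with
    | zero => intro j hj; obtain rfl : j = i := by omega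
              exact h
    | succ d ih =>
      intro j hj
      rw [← t.2 j, ← t'.2 j, ih (j + 1) (by omega)]
  refine Subtype.ext (funext fun j => ?_)
  rcases Nat.le_total i j with hj | hj
  · obtain ⟨d, rfl⟩ := Nat.exists_eq_add_of_le hj
    exact up d
  · exact down (i - j) j (by omega)

section

variable {K : ℕ → ℕ} {G : ℕ → GT} (c : ∀ i, Cov (G (i + 1)) (G i) (K i))
  (hK : Monotone K) (hK' : ∀ i, i ≤ K i)

/-- The limit tree. -/
def LimG : GT where
  N := Thr c
  lev := fun t => (G 0).lev (t.1 0)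
  par := fun t => ⟨fun i => (G i).par (t.1 i), fun i => by
    rw [(c i).π.par_f, t.2 i]⟩
  root := ⟨fun i => (G i).root, fun i => by
    refine (G i).root_unique _ ?_
    rw [(c i).π.lev_f, (G (i + 1)).lev_root]⟩
  lev_root := (G 0).lev_root
  root_unique := fun t ht => Subtype.ext (funext fun i => by
    refine (G i).root_unique _ ?_
    rw [thr_lev t i]; exact ht)
  lev_par := fun t => (G 0).lev_par _
  child := fun t => by
    have hi : (G 0).lev (t.1 0) + 1 ≤ K ((G 0).lev (t.1 0) + 1) := hK' _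
    set i := (G 0).lev (t.1 0) + 1 with hidef
    obtain ⟨y, h1, h2⟩ := (G i).child (t.1 i)
    have h3 := thr_lev t i
    obtain ⟨t', ht'⟩ := exists_thr i c hK y (by omega)
    have h4 := thr_lev t' i
    refine ⟨t', ?_, ?_⟩
    · rw [← h4, ht', h1, h3]
    · refine thr_ext hK (i := i) ?_ ?_
      · change (G i).par (t'.1 i) = t.1 i
        rw [ht', h2]
      · change (G i).lev ((G i).par (t'.1 i)) ≤ _
        rw [ht', h2]
        omega

/-- The projections of the limit tree. -/
def LimP (i : ℕ) : LMap (LimG c hK hK') (G i) :=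
  ⟨fun t => t.1 i, fun t => thr_lev t i, fun _ => rfl⟩

/-- The thread through a node. -/
noncomputable def thrOf (i : ℕ) (y : (G i).N) (h : (G i).lev y < 2 * K i) : Thr c :=
  Classical.choose (exists_thr i c hK y h.le)

theorem thrOf_spec (i : ℕ) (y : (G i).N) (h : (G i).lev y < 2 * K i) :
    (thrOf c hK i y h).1 i = y :=
  Classical.choose_spec (exists_thr i c hK y h.le)

open Classical in
/-- Restriction of a strategy of the limit tree. -/
noncomputable def LimR (σ : St (LimG c hK hK')) (i : ℕ) : St (G i) where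
  f := fun y => if h : (G i).lev y < 2 * K i then (σ.f (thrOf c hK i y h)).1 i
    else (default : St (G i)).f y
  lev_f := fun y => by
    by_cases h : (G i).lev y < 2 * K i
    · rw [dif_pos h]
      have h1 := σ.lev_f (thrOf c hK i y h)
      change (G 0).lev ((σ.f (thrOf c hK i y h)).1 0) = (G 0).lev ((thrOf c hK i y h).1 0) + 1
        at h1
      rw [thr_lev, h1, ← thr_lev _ i, thrOf_spec]
    · rw [dif_neg h]; exact (default : St (G i)).lev_f y
  par_f := fun y => by
    by_cases h : (G i).lev y < 2 * K i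
    · rw [dif_pos h]
      have h1 := σ.par_f (thrOf c hK i y h)
      have h2 := congrArg (fun t : Thr c => t.1 i) h1
      change (G i).par ((σ.f (thrOf c hK i y h)).1 i) = (thrOf c hK i y h).1 i at h2
      rw [h2, thrOf_spec]
    · rw [dif_neg h]; exact (default : St (G i)).par_f y

theorem LimR_thr (σ : St (LimG c hK hK')) (i : ℕ) (t : Thr c)
    (h : (G i).lev (t.1 i) < 2 * K i) :
    (LimR c hK hK' σ i).f (t.1 i) = (σ.f t).1 i := by
  have h1 : thrOf c hK i (t.1 i) h = t := by
    refine thr_ext hK (i := i) (thrOf_spec c hK i _ h) ?_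
    rw [thrOf_spec]; exact h.le
  simp only [LimR, dif_pos h, h1]

/-- The strategies obtained from `d` transformations. -/
noncomputable def LimS (p : ℕ) (σ : St (LimG c hK hK')) : ∀ (_ i : ℕ), St (G i)
  | 0, i => LimR c hK hK' σ i
  | d + 1, i => (c i).φ p (LimS p σ d (i + 1))

theorem LimS_succ (p : ℕ) (σ : St (LimG c hK hK')) (d i : ℕ) (y : (G i).N)
    (h : (G i).lev y < 2 * K (i + d)) :
    (LimS c hK hK' p σ (d + 1) i).f y = (LimS c hK hK' p σ d i).f y := by
  induction d generalizing i with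
  | zero =>
    have hy : (thrOf c hK i y h).1 i = y := thrOf_spec c hK i y h
    set t := thrOf c hK i y h with ht
    have hl : (G (i + 1)).lev (t.1 (i + 1)) < 2 * K i := by
      rw [thr_lev t (i + 1), ← thr_lev t i, hy]; exact h
    have h1 : (LimS c hK hK' p σ 1 i).f (t.1 i) = (σ.f t).1 i := by
      change ((c i).φ p (LimR c hK hK' σ (i + 1))).f (t.1 i) = _
      rw [← t.2 i, (c i).low p _ _ hl,
        LimR_thr c hK hK' σ (i + 1) t (lt_of_lt_of_le hl
          (Nat.mul_le_mul_left 2 (hK (Nat.le_succ i))))]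
      exact (σ.f t).2 i
    have h2 : (LimS c hK hK' p σ 0 i).f (t.1 i) = (σ.f t).1 i :=
      LimR_thr c hK hK' σ i t (by rw [hy]; exact h)
    rw [hy] at h1 h2
    rw [h1, h2]
  | succ d ih =>
    have hK2 : K (i + 1 + d) = K (i + (d + 1)) := by congr 1; omega
    refine (c i).loc p (2 * K (i + (d + 1)) - 1) _ _ (fun x hx => ?_) y (by omega)
    exact ih (i + 1) x (by rw [hK2]; omega)

theorem LimS_stable (p : ℕ) (σ : St (LimG c hK hK')) (i : ℕ) (y : (G i).N) {d : ℕ}
    (h : (G i).lev y + 1 ≤ d) :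
    (LimS c hK hK' p σ d i).f y = (LimS c hK hK' p σ ((G i).lev y + 1) i).f y := by
  induction d, h using Nat.le_induction with
  | base => rfl
  | succ d hd ih =>
    rw [LimS_succ, ih]
    have := hK' (i + d)
    omega

theorem LimS_low (p : ℕ) (σ : St (LimG c hK hK')) (i d : ℕ) (y : (G i).N)
    (h : (G i).lev y < 2 * K i) :
    (LimS c hK hK' p σ d i).f y = (LimS c hK hK' p σ 0 i).f y := by
  induction d with
  | zero => rfl
  | succ d ih =>
    rw [LimS_succ, ih]
    exact lt_of_lt_of_le h (Nat.mul_le_mul_left 2 (hK (by omega)))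

/-- The transformed strategy on the tree number `i`. -/
noncomputable def LimT (p : ℕ) (σ : St (LimG c hK hK')) (i : ℕ) : St (G i) where
  f := fun y => (LimS c hK hK' p σ ((G i).lev y + 1) i).f y
  lev_f := fun y => (LimS c hK hK' p σ ((G i).lev y + 1) i).lev_f y
  par_f := fun y => (LimS c hK hK' p σ ((G i).lev y + 1) i).par_f y

theorem LimT_succ (p : ℕ) (σ : St (LimG c hK hK')) (i : ℕ) :
    (c i).φ p (LimT c hK hK' p σ (i + 1)) = LimT c hK hK' p σ i := by
  have h : ((c i).φ p (LimT c hK hK' p σ (i + 1))).f = (LimT c hK hK' p σ i).f := by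
    funext y
    have h1 : ((c i).φ p (LimT c hK hK' p σ (i + 1))).f y =
        ((c i).φ p (LimS c hK hK' p σ ((G i).lev y + 1) (i + 1))).f y := by
      refine (c i).loc p ((G i).lev y) _ _ (fun x hx => ?_) y le_rfl
      exact (LimS_stable c hK hK' p σ (i + 1) x (by omega)).symm
    rw [h1]
    exact LimS_stable c hK hK' p σ i y (d := (G i).lev y + 2) (by omega)
  cases hA : (c i).φ p (LimT c hK hK' p σ (i + 1))
  cases hB : LimT c hK hK' p σ i
  rw [hA, hB] at h
  simp only at h
  subst h
  rfl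

theorem LimT_thr (p : ℕ) (σ : St (LimG c hK hK')) (i : ℕ) (t : Thr c)
    (h : (G i).lev (t.1 i) < 2 * K i) :
    (LimT c hK hK' p σ i).f (t.1 i) = (σ.f t).1 i := by
  change (LimS c hK hK' p σ _ i).f (t.1 i) = _
  rw [LimS_low c hK hK' p σ i _ _ h]
  exact LimR_thr c hK hK' σ i t h

/-- The limit covering. -/
noncomputable def LimCov : Cov (LimG c hK hK') (G 0) (K 0) where
  π := LimP c hK hK' 0
  inj := fun x y hx h => thr_ext hK (i := 0) h hx
  surj := fun y hy => exists_thr 0 c hK y hy
  φ := fun p σ => LimT c hK hK' p σ 0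
  loc := fun p n σ τ h y hy => by
    have hR : ∀ i (y : (G i).N), (G i).lev y ≤ n →
        (LimR c hK hK' σ i).f y = (LimR c hK hK' τ i).f y := by
      intro i y hy
      simp only [LimR]
      by_cases h1 : (G i).lev y < 2 * K i
      · rw [dif_pos h1, dif_pos h1, h]
        change (G 0).lev ((thrOf c hK i y h1).1 0) ≤ n
        rw [← thr_lev _ i, thrOf_spec]; exact hy
      · rw [dif_neg h1, dif_neg h1]
    have hS : ∀ d i (y : (G i).N), (G i).lev y ≤ n →
        (LimS c hK hK' p σ d i).f y = (LimS c hK hK' p τ d i).f y := by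
      intro d
      induction d with
      | zero => exact hR
      | succ d ih =>
        intro i y hy
        exact (c i).loc p n _ _ (fun x hx => ih (i + 1) x hx) y hy
    exact hS _ 0 y hy
  low := fun p σ t ht => LimT_thr c hK hK' p σ 0 t ht
  lift := fun p hp σ y hy => by
    have hstep : ∀ (i : ℕ) (y : {y : Br (G i) // Cons p (LimT c hK hK' p σ i) y}),
        ∃ y' : {y : Br (G (i + 1)) // Cons p (LimT c hK hK' p σ (i + 1)) y},
          (c i).π.br y'.1 = y.1 := by
      intro i y
      obtain ⟨x, hx, hxy⟩ := (c i).lift p hp (LimT c hK hK' p σ (i + 1)) y.1 (by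
        rw [LimT_succ]; exact y.2)
      exact ⟨⟨x, hx⟩, hxy⟩
    choose f hf using hstep
    let Y : ∀ i, {y : Br (G i) // Cons p (LimT c hK hK' p σ i) y} := fun i =>
      Nat.rec (motive := fun i => {y : Br (G i) // Cons p (LimT c hK hK' p σ i) y}) ⟨y, hy⟩
        (fun i y => f i y) i
    have hY : ∀ i, (c i).π.br (Y (i + 1)).1 = (Y i).1 := fun i => hf i (Y i)
    let x : Br (LimG c hK hK') :=
      ⟨fun n => ⟨fun i => (Y i).1.x n, fun i => by
          have := congrArg (fun z : Br (G i) => z.x n) (hY i)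
          exact this⟩,
        fun n => (Y 0).1.lev_x n,
        fun n => Subtype.ext (funext fun i => (Y i).1.par_x n)⟩
    refine ⟨x, fun n hn => ?_, rfl⟩
    refine thr_ext hK (i := n + 1) ?_ ?_
    · change (Y (n + 1)).1.x (n + 1) = (σ.f (x.x n)).1 (n + 1)
      rw [(Y (n + 1)).2 n hn]
      refine LimT_thr c hK hK' p σ (n + 1) (x.x n) ?_
      change (G (n + 1)).lev ((Y (n + 1)).1.x n) < _
      rw [(Y (n + 1)).1.lev_x]
      have := hK' (n + 1)
      omega
    · change (G (n + 1)).lev ((Y (n + 1)).1.x (n + 1)) ≤ _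
      rw [(Y (n + 1)).1.lev_x]
      have := hK' (n + 1)
      omega

end

end BD92
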