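import Pool.Agent.LibBD92.Ind
import Pool.Agent.LibMC92.Defs

/-!
Borel determinacy for games on the naturals.
-/

namespace BD92

/-- The tree of finite sequences. -/
def TT : GT where
  N := List ℕ
  lev := List.length
  par := List.dropLast
  root := []
  lev_root := rfl
  root_unique := fun _ hx => List.length_eq_zero_iff.1 hx
  lev_par := fun _ => List.length_dropLast
  child := fun x => ⟨x ++ [0], by simp, by simp⟩

/-- The branch of a sequence. -/
def brOf (a : ℕ → ℕ) : Br TT :=
  ⟨fun n => (List.range n).map a, fun n => by simp [TT], fun n => by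
    change ((List.range (n + 1)).map a).dropLast = (List.range n).map a
    rw [List.range_succ, List.map_append]
    simp⟩

/-- The sequence of a branch. -/
def plOf (x : Br TT) : ℕ → ℕ := fun n => List.getLastD (α := ℕ) (x.x (n + 1)) 0

theorem eq_append_last (l : List ℕ) (h : l ≠ []) : l = l.dropLast ++ [l.getLastD 0] := by
  conv_lhs => rw [← List.dropLast_append_getLast h]
  congr 2
  rw [List.getLastD_eq_getLast?, List.getLast?_eq_getLast_of_ne_nil h]
  rfl

theorem map_plOf (x : Br TT) (n : ℕ) : (List.range n).map (plOf x) = x.x n := by
  induction n with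
  | zero => exact (br_zero x).symm
  | succ n ih =>
    rw [List.range_succ, List.map_append, ih]
    have h1 : (x.x (n + 1) : List ℕ).length = n + 1 := x.lev_x (n + 1)
    have h2 : (x.x (n + 1) : List ℕ).dropLast = x.x n := x.par_x n
    have h3 : (x.x (n + 1) : List ℕ) ≠ [] := by
      intro hcon
      rw [hcon] at h1
      simp at h1
    have h4 := eq_append_last _ h3
    rw [h2] at h4
    exact h4.symm

theorem plOf_brOf (a : ℕ → ℕ) : plOf (brOf a) = a := by
  funext n
  change List.getLastD ((List.range (n + 1)).map a) 0 = a n
  rw [List.range_succ, List.map_append]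
  simp

theorem map_inj_range {a b : ℕ → ℕ} {n : ℕ}
    (h : (List.range n).map a = (List.range n).map b) : ∀ i < n, a i = b i := by
  intro i hi
  exact List.map_inj_left.1 h i (List.mem_range.2 hi)

theorem open_openS {A : Set (ℕ → ℕ)} (hA : IsOpen A) : OpenS {x : Br TT | plOf x ∈ A} := by
  intro x hx
  obtain ⟨I, u, h1, h2⟩ := isOpen_pi_iff.1 hA (plOf x) hx
  refine ⟨I.sup id + 1, fun y hy => h2 fun i hi => ?_⟩
  have h3 : plOf y i = plOf x i := by
    refine map_inj_range (n := I.sup id + 1) ?_ i ?_
    · rw [map_plOf, map_plOf]; exact hy
    · have : id i ≤ I.sup id := Finset.le_sup hi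
      simp only [id] at this
      omega
  rw [h3]
  exact (h1 i hi).2

theorem borel_uu (A : Set (ℕ → ℕ)) (hA : @MeasurableSet _ (borel (ℕ → ℕ)) A) :
    UU TT {x : Br TT | plOf x ∈ A} := by
  induction A, hA using MeasurableSpace.generateFrom_induction with
  | hC t ht _ => exact open_uu (open_openS ht)
  | empty => exact open_uu fun x hx => absurd hx (Set.notMem_empty _)
  | compl t _ ih => exact uu_compl ih
  | iUnion s _ ih =>
    have h : {x : Br TT | plOf x ∈ ⋃ i, s i} = ⋃ i, {x : Br TT | plOf x ∈ s i} := by
      ext x
      simp only [Set.mem_iUnion, Set.mem_ofPred_eq]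
    rw [h]
    exact uu_iUnion ih

/-- The answer of a strategy as a list. -/
def lf (σ : St TT) (p : List ℕ) : List ℕ := σ.f p

/-- The position after the moves `bs` of the player `1`. -/
def posI (σ : St TT) (bs : List ℕ) : List ℕ :=
  bs.foldl (fun p b => lf σ p ++ [b]) []

/-- The position after the moves `as` of the player `0` and the answers. -/
def posII (σ : St TT) (as : List ℕ) : List ℕ :=
  as.foldl (fun p a => lf σ (p ++ [a])) []

theorem st_last (σ : St TT) (p : List ℕ) :
    lf σ p = p ++ [(lf σ p).getLastD 0] := by
  have h1 : (lf σ p).length = p.length + 1 := σ.lev_f p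
  have h2 : (lf σ p).dropLast = p := σ.par_f p
  have h3 : lf σ p ≠ [] := by
    intro hcon
    rw [hcon] at h1
    simp at h1
  have h4 := eq_append_last _ h3
  rw [h2] at h4
  exact h4

theorem det_determined {A : Set (ℕ → ℕ)} (h : Det {x : Br TT | plOf x ∈ A}) :
    MC92.Determined A := by
  rcases h with ⟨σ, hσ⟩ | ⟨σ, hσ⟩
  · left
    refine ⟨fun bs => (lf σ (posI σ bs)).getLastD 0, fun b => ?_⟩
    set s : List ℕ → ℕ := fun bs => (lf σ (posI σ bs)).getLastD 0 with hs
    set a := MC92.play1 s b with ha
    have ha0 : ∀ m, a (2 * m) = s ((List.range m).map b) := by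
      intro m
      rw [ha]
      unfold MC92.play1
      rw [if_pos (by omega), show 2 * m / 2 = m by omega]
    have ha1 : ∀ m, a (2 * m + 1) = b m := by
      intro m
      rw [ha]
      unfold MC92.play1
      rw [if_neg (by omega), show (2 * m + 1) / 2 = m by omega]
    have hodd : ∀ m, (List.range (2 * m)).map a = posI σ ((List.range m).map b) →
        (List.range (2 * m + 1)).map a = lf σ (posI σ ((List.range m).map b)) := by
      intro m hm
      rw [List.range_succ, List.map_append, hm, List.map_singleton, ha0, st_last]
    have heven : ∀ m, (List.range (2 * m)).map a = posI σ ((List.range m).map b) := by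
      intro m
      induction m with
      | zero => rfl
      | succ m ih =>
        rw [show 2 * (m + 1) = 2 * m + 1 + 1 by ring, List.range_succ, List.map_append,
          hodd m ih, List.map_singleton, ha1, List.range_succ (n := m), List.map_append,
          List.map_singleton]
        simp only [posI, List.foldl_append, List.foldl_cons, List.foldl_nil]
    have hc : Cons 0 σ (brOf a) := by
      intro n hn
      obtain ⟨m, rfl⟩ : ∃ m, n = 2 * m := ⟨n / 2, by omega⟩
      change (List.range (2 * m + 1)).map a = lf σ ((List.range (2 * m)).map a)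
      rw [hodd m (heven m), heven m]
    have := hσ _ hc
    simp only [Set.mem_ofPred_eq, plOf_brOf] at this
    exact this
  · right
    refine ⟨fun as => (posII σ as).getLastD 0, fun a => ?_⟩
    set t : List ℕ → ℕ := fun as => (posII σ as).getLastD 0 with ht
    set c := MC92.play2 t a with hcdef
    have hc0 : ∀ m, c (2 * m) = a m := by
      intro m
      rw [hcdef]
      unfold MC92.play2
      rw [if_pos (by omega), show 2 * m / 2 = m by omega]
    have hc1 : ∀ m, c (2 * m + 1) = t ((List.range (m + 1)).map a) := by
      intro m
      rw [hcdef]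
      unfold MC92.play2
      rw [if_neg (by omega), show (2 * m + 1) / 2 = m by omega]
    have hpos : ∀ m, posII σ ((List.range (m + 1)).map a) =
        lf σ (posII σ ((List.range m).map a) ++ [a m]) := by
      intro m
      rw [List.range_succ, List.map_append, List.map_singleton]
      simp only [posII, List.foldl_append, List.foldl_cons, List.foldl_nil]
    have hodd : ∀ m, (List.range (2 * m)).map c = posII σ ((List.range m).map a) →
        (List.range (2 * m + 1)).map c = posII σ ((List.range m).map a) ++ [a m] := by
      intro m hm
      rw [List.range_succ, List.map_append, hm, List.map_singleton, hc0]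
    have heven : ∀ m, (List.range (2 * m)).map c = posII σ ((List.range m).map a) := by
      intro m
      induction m with
      | zero => rfl
      | succ m ih =>
        rw [show 2 * (m + 1) = 2 * m + 1 + 1 by ring, List.range_succ, List.map_append,
          hodd m ih, List.map_singleton, hc1, hpos m, ht]
        simp only
        rw [hpos m]
        exact (st_last σ _).symm
    have hc : Cons 1 σ (brOf c) := by
      intro n hn
      obtain ⟨m, rfl⟩ : ∃ m, n = 2 * m + 1 := ⟨n / 2, by omega⟩
      change (List.range (2 * m + 2)).map c = lf σ ((List.range (2 * m + 1)).map c)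
      rw [hodd m (heven m), ← hpos m, ← heven (m + 1)]
      rfl
    have := hσ _ hc
    simp only [Set.mem_ofPred_eq, plOf_brOf] at this
    exact this

/-- Martin's theorem: Borel determinacy. -/
theorem borel_determined (A : Set (ℕ → ℕ)) (hA : @MeasurableSet _ (borel (ℕ → ℕ)) A) :
    MC92.Determined A := det_determined (det_of_uu (borel_uu A hA))

theorem borel_determinacy : MC92.Determinacy (borel (ℕ → ℕ)) where
  borel_le := le_rfl
  continuous := fun g hg => by
    refine @measurable_generateFrom _ _ (borel (ℕ → ℕ)) _ g fun t ht => ?_
    exact MeasurableSpace.measurableSet_generateFrom (IsOpen.preimage hg ht)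
  determined := borel_determined

theorem determinacy_of {m : MeasurableSpace (ℕ → ℕ)}
    (h : m = borel (ℕ → ℕ) ∨ MC92.Determinacy m) : MC92.Determinacy m :=
  h.elim (fun h => h ▸ borel_determinacy) fun h => h

end BD92
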